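import Mathlib

set_option autoImplicit false

/-!
# Project PD (helper892): the converse of Desargues' involution theorem (MP_ae5b4e_an)

A smooth foliation of a plane domain by curves with nonzero curvature, such that on every tangent
line of every leaf the involution which exchanges the two points of each (nearby) leaf is
projective, consists of the conics of one pencil, and its compact leaves are ellipses.

`G (x, y)` are local coordinates, the lines are `y = a + b x`, the leaf of level `c` is met in two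
points with abscissas `x₁ (a, b, c)`, `x₂ (a, b, c)`; `S = x₁ + x₂`, `P = x₁ x₂` and the projective
involution of the line says `S = φ P + ψ` with functions `φ, ψ` of `(a, b)`.
-/

open Filter Topology Set
open scoped ContDiff

namespace Pool.Agent.U892.PD

noncomputable section

/-! ### The foliation -/

/-- The level curves of `F` are a smooth foliation of the open set `Ω`, all leaves have nonzero
curvature. -/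
structure Foliation (Ω : Set (ℝ × ℝ)) (F : ℝ × ℝ → ℝ) : Prop where
  isOpen : IsOpen Ω
  smooth : ∀ p ∈ Ω, ContDiffAt ℝ ∞ F p
  regular : ∀ p ∈ Ω, fderiv ℝ F p ≠ 0
  curved : ∀ p ∈ Ω, ∀ v : ℝ × ℝ, v ≠ 0 → fderiv ℝ F p v = 0 →
    iteratedDeriv 2 (fun s : ℝ => F (p + s • v)) 0 ≠ 0

/-- On the tangent line of the leaf at `p` (direction `v`) the involution which exchanges the two
points of each leaf near `p` (points `p + s v`, `p - t v`, `s, t > 0`) is projective: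
`1 / s - 1 / t = m`; locally uniformly in `p`. -/
def Projective (Ω : Set (ℝ × ℝ)) (F : ℝ × ℝ → ℝ) : Prop :=
  ∀ p₀ ∈ Ω, ∃ r : ℝ, 0 < r ∧ ∀ p ∈ Ω, dist p p₀ < r → ∀ v : ℝ × ℝ, ‖v‖ = 1 →
    fderiv ℝ F p v = 0 → ∃ m : ℝ, ∀ s t : ℝ, 0 < s → s < r → 0 < t → t < r →
      F (p + s • v) = F (p - t • v) → 1 / s - 1 / t = m

/-- value at the point `p` of the quadratic polynomial with the coefficients `Q` -/
def quad (Q : Fin 6 → ℝ) (p : ℝ × ℝ) : ℝ :=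
  Q 0 + Q 1 * p.1 + Q 2 * p.2 + Q 3 * p.1 ^ 2 + Q 4 * (p.1 * p.2) + Q 5 * p.2 ^ 2

/-- near `q` the level curves of `F` lie on conics of the pencil spanned by `Q₁`, `Q₂` -/
def LocPencil (F : ℝ × ℝ → ℝ) (q : ℝ × ℝ) (Q₁ Q₂ : Fin 6 → ℝ) : Prop :=
  ∃ V ∈ 𝓝 q, ∀ p ∈ V, ∃ l m : ℝ, (l ≠ 0 ∨ m ≠ 0) ∧
    ∀ p' ∈ V, F p' = F p → l * quad Q₁ p' + m * quad Q₂ p' = 0

/-- `K` is a compact leaf of level `c` -/
structure CompactLeaf (Ω : Set (ℝ × ℝ)) (F : ℝ × ℝ → ℝ) (K : Set (ℝ × ℝ)) (c : ℝ) : Prop where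
  sub : K ⊆ Ω
  compact : IsCompact K
  conn : IsConnected K
  level : ∀ p ∈ K, F p = c
  isOpen : ∀ p ∈ K, ∀ᶠ p' in 𝓝 p, F p' = c → p' ∈ K

/-! ### Functions of `(a, b)` -/

/-- derivative with respect to `a` -/
def da (f : ℝ × ℝ → ℝ) (w : ℝ × ℝ) : ℝ := fderiv ℝ f w (1, 0)

/-- derivative with respect to `b` -/
def db (f : ℝ × ℝ → ℝ) (w : ℝ × ℝ) : ℝ := fderiv ℝ f w (0, 1)

/-- the abscissas `x j`, `y j` of the points of three leaves on the line with parameters near `z`,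
exchanged by a projective involution with real fixed points (`S = φ P + ψ`) -/
structure Dat (x y : Fin 3 → ℝ × ℝ → ℝ) (φ ψ : ℝ × ℝ → ℝ) (z : ℝ × ℝ) : Prop where
  sx : ∀ j, ContDiffAt ℝ 20 (x j) z
  sy : ∀ j, ContDiffAt ℝ 20 (y j) z
  sφ : ContDiffAt ℝ 20 φ z
  sψ : ContDiffAt ℝ 20 ψ z
  bx : ∀ j, ∀ᶠ w in 𝓝 z, db (x j) w = x j w * da (x j) w
  bY : ∀ j, ∀ᶠ w in 𝓝 z, db (y j) w = y j w * da (y j) w
  rel : ∀ j, ∀ᶠ w in 𝓝 z, x j w + y j w = φ w * (x j w * y j w) + ψ w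
  xy : ∀ j, x j z ≠ y j z
  ne : ∀ i j, i ≠ j → x i z * y i z ≠ x j z * y j z
  nd : φ z * ψ z < 1

/-- **T**: the leaves satisfy the Reiss relation `S_aa = 0`. -/
def S_T : Prop := ∀ (x y : Fin 3 → ℝ × ℝ → ℝ) (φ ψ : ℝ × ℝ → ℝ) (z : ℝ × ℝ), Dat x y φ ψ z →
  ∀ j, da (da (fun w => x j w + y j w)) z = 0

/-- **TN**: the same for a normalised involution at the origin. -/
def S_TN : Prop := ∀ (x y : Fin 3 → ℝ × ℝ → ℝ) (φ ψ : ℝ × ℝ → ℝ), Dat x y φ ψ (0, 0) →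
  φ (0, 0) = 0 → ψ (0, 0) = 0 → ∀ j, da (da (fun w => x j w + y j w)) (0, 0) = 0

/-- the closed system. Indices: `0 φ, 1 ψ, 2 θ, 3 η, 4 γ, 5 δ, 6 Γ, 7 Δ, 8 T, 9 T_a, 10 T_b,
11 T_ab`; `S_a = θ P + η`, `P_a = γ P + δ`, `P_aa = Γ P + Δ`, `S_aa = T`.
`va v i` is the derivative of the function `i` with respect to `a` for `i < 11`. -/
def va (v : Fin 12 → ℝ) : Fin 11 → ℝ :=
  ![v 2 - v 0 * v 4, v 3 - v 0 * v 5, -(v 4 * v 2), v 8 - v 2 * v 5, v 6 - v 4 ^ 2,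
    v 7 - v 4 * v 5, 3 * v 8 * v 2 + v 0 * v 9 - v 4 * v 6,
    3 * v 3 * v 8 + v 1 * v 9 - v 10 - v 6 * v 5, v 9,
    v 0 * v 11 + 4 * v 2 * v 10 - 6 * v 8 * v 6 + 3 * v 0 * v 8 ^ 2 - 4 * v 4 * v 9, v 11]

/-- derivatives with respect to `b` of the functions `i < 11` -/
def vb (v : Fin 12 → ℝ) : Fin 11 → ℝ :=
  ![v 1 * v 2 - v 4, v 1 * v 3 - v 5, v 3 * v 2 - v 6 + v 0 * v 8, v 3 ^ 2 + v 1 * v 8 - v 7,
    v 8 + v 2 * v 5, v 3 * v 5, v 9 + v 2 * v 7 + 2 * v 4 * v 8, 2 * v 8 * v 5 + v 3 * v 7,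
    v 10, v 11,
    v 1 * v 11 + 4 * v 3 * v 10 - 6 * v 8 * v 7 + 3 * v 1 * v 8 ^ 2 - 4 * v 5 * v 9]

/-- the closed system holds near `z` -/
structure Sys (f : Fin 12 → ℝ × ℝ → ℝ) (z : ℝ × ℝ) : Prop where
  smooth : ∀ i, ContDiffAt ℝ 8 (f i) z
  a : ∀ i : Fin 11, ∀ᶠ w in 𝓝 z, da (f i.castSucc) w = va (fun k => f k w) i
  b : ∀ i : Fin 11, ∀ᶠ w in 𝓝 z, db (f i.castSucc) w = vb (fun k => f k w) i

/-- **SYS1**: three leaves give the first functions of the closed system.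

Proof: near `z`, `P j = x j * y j`, `S j = x j + y j` satisfy `S_b = S S_a - P_a`, `P_b = P S_a` and
`S j = φ P j + ψ`. So `P_a = γ P + δ` with `γ = -(φ_b - ψ φ_a)/(1 - φ ψ)`,
`δ = -(ψ_b - ψ ψ_a)/(1 - φ ψ)` (`φ ψ < 1` near `z`), `S_a = θ P + η` with `θ = φ_a + φ γ`,
`η = φ δ + ψ_a`, `P_b = θ P² + η P`. Compare the coefficients, in the three distinct values `P j w`, of
the identity `(P_a)_b = (P_b)_a`: `θ_a = -γ θ`, `γ_b = 2 θ δ + η_a`, `δ_b = η δ`.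
Then `S_aa = θ δ + η_a`. -/
def S_SYS1 : Prop := ∀ (x y : Fin 3 → ℝ × ℝ → ℝ) (φ ψ : ℝ × ℝ → ℝ) (z : ℝ × ℝ), Dat x y φ ψ z →
  ∃ θ η γ δ : ℝ × ℝ → ℝ, ContDiffAt ℝ 15 θ z ∧ ContDiffAt ℝ 15 η z ∧ ContDiffAt ℝ 15 γ z ∧
    ContDiffAt ℝ 15 δ z ∧ (∀ᶠ w in 𝓝 z, da φ w = θ w - φ w * γ w ∧ da ψ w = η w - φ w * δ w ∧
      db φ w = ψ w * θ w - γ w ∧ db ψ w = ψ w * η w - δ w ∧ da θ w = -(γ w * θ w) ∧
      db γ w = 2 * θ w * δ w + da η w ∧ db δ w = η w * δ w) ∧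
    ∀ j, da (da (fun w => x j w + y j w)) z = θ z * δ z + da η z

/-- **SYS2**: the closed system.

Proof: `T = θ δ + η_a`, `Γ = γ_a + γ²`, `Δ = δ_a + γ δ`, `f 9 = T_a`, `f 10 = T_b`, `f 11 = T_ab`. The
formulas of `va`, `vb` follow from the symmetry of the second derivatives (`(φ_a)_b = (φ_b)_a` gives
`θ_b`, `ψ` gives `η_b`, `γ` gives `Γ_b`, `δ` gives `Δ_b`, `θ` gives `Γ_a`, `η` gives `Δ_a`, then `Γ` gives
`T_aa` and `Δ` gives `T_bb`), each by a polynomial identity. -/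
def S_SYS2 : Prop := ∀ (φ ψ θ η γ δ : ℝ × ℝ → ℝ) (z : ℝ × ℝ), ContDiffAt ℝ 15 φ z →
  ContDiffAt ℝ 15 ψ z → ContDiffAt ℝ 15 θ z → ContDiffAt ℝ 15 η z → ContDiffAt ℝ 15 γ z →
  ContDiffAt ℝ 15 δ z → (∀ᶠ w in 𝓝 z, da φ w = θ w - φ w * γ w ∧ da ψ w = η w - φ w * δ w ∧
      db φ w = ψ w * θ w - γ w ∧ db ψ w = ψ w * η w - δ w ∧ da θ w = -(γ w * θ w) ∧
      db γ w = 2 * θ w * δ w + da η w ∧ db δ w = η w * δ w) →
  ∃ f : Fin 12 → ℝ × ℝ → ℝ, f 0 = φ ∧ f 1 = ψ ∧ Sys f z ∧ f 8 z = θ z * δ z + da η z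

/-- **ALG**: for a solution of the closed system `T = 0` where `φ = ψ = 0`. -/
def S_ALG : Prop := ∀ (f : Fin 12 → ℝ × ℝ → ℝ) (z : ℝ × ℝ), Sys f z → f 0 z = 0 → f 1 z = 0 →
  f 8 z = 0

/-! ### The points of a leaf on the lines near to a given line -/

/-- **IMP**: implicit function. `x ((a, b), c)` is the abscissa of the point of the level curve
`{G = c}` on the line `y = a + b x`. -/
def S_IMP : Prop := ∀ (G : ℝ × ℝ → ℝ) (X : ℝ), ContDiffAt ℝ 21 G (X, 0) →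
  fderiv ℝ G (X, 0) (1, 0) ≠ 0 → ∃ x : (ℝ × ℝ) × ℝ → ℝ,
    ContDiffAt ℝ 20 x ((0, 0), G (X, 0)) ∧ x ((0, 0), G (X, 0)) = X ∧
    (∀ᶠ z in 𝓝 (((0, 0), G (X, 0)) : (ℝ × ℝ) × ℝ), G (x z, z.1.1 + z.1.2 * x z) = z.2) ∧
    (∀ᶠ z in 𝓝 (((0, 0), G (X, 0)) : (ℝ × ℝ) × ℝ),
      fderiv ℝ x z ((0, 1), 0) = x z * fderiv ℝ x z ((1, 0), 0)) ∧
    fderiv ℝ x ((0, 0), G (X, 0)) ((0, 0), 1) * fderiv ℝ G (X, 0) (1, 0) = 1 ∧
    (∀ᶠ p in 𝓝 ((X, 0) : ℝ × ℝ), x ((p.2, 0), G p) = p.1)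

/-- **TAN**: the point of tangency. -/
def S_TAN : Prop := ∀ G : ℝ × ℝ → ℝ, ContDiffAt ℝ 21 G (0, 0) → fderiv ℝ G (0, 0) (1, 0) = 0 →
  iteratedDeriv 2 (fun s : ℝ => G (s, 0)) 0 ≠ 0 → ∃ ξ : ℝ × ℝ → ℝ, ContDiffAt ℝ 20 ξ (0, 0) ∧
    ξ (0, 0) = 0 ∧
    ∀ᶠ z in 𝓝 ((0, 0) : ℝ × ℝ), fderiv ℝ G (ξ z, z.1 + z.2 * ξ z) (1, z.2) = 0

/-- `G` is the function `F` in the affine coordinates with the origin `o` and the basis `u, w` -/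
def coord (F : ℝ × ℝ → ℝ) (o u w : ℝ × ℝ) (p : ℝ × ℝ) : ℝ := F (o + p.1 • u + p.2 • w)

/-- **FRAME**: for every `q ∈ Ω` there is a line `y = 0` through `q` (suitable affine coordinates)
tangent to a nearby leaf at the origin, which meets the leaf of `q` in `q = (X₁, 0)` and `(X₂, 0)` on
different sides of the origin. Projectivity holds for the tangent lines near this line, far enough. -/
def S_FRAME : Prop := ∀ (Ω : Set (ℝ × ℝ)) (F : ℝ × ℝ → ℝ), Foliation Ω F → Projective Ω F →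
  ∀ q ∈ Ω, ∃ o u w : ℝ × ℝ, ∃ X₁ X₂ : ℝ, u.1 * w.2 - u.2 * w.1 ≠ 0 ∧ o + X₁ • u = q ∧
    X₁ * X₂ < 0 ∧ coord F o u w (X₁, 0) = coord F o u w (X₂, 0) ∧
    ContDiffAt ℝ 21 (coord F o u w) (0, 0) ∧ ContDiffAt ℝ 21 (coord F o u w) (X₁, 0) ∧
    ContDiffAt ℝ 21 (coord F o u w) (X₂, 0) ∧
    fderiv ℝ (coord F o u w) (0, 0) (1, 0) = 0 ∧
    iteratedDeriv 2 (fun s : ℝ => coord F o u w (s, 0)) 0 ≠ 0 ∧
    fderiv ℝ (coord F o u w) (X₁, 0) (1, 0) * fderiv ℝ (coord F o u w) (X₂, 0) (1, 0) < 0 ∧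
    ∃ ρ : ℝ, |X₁| < ρ ∧ |X₂| < ρ ∧ ∀ᶠ z in 𝓝 (((0, 0), 0) : (ℝ × ℝ) × ℝ),
      fderiv ℝ (coord F o u w) z.1 (1, z.2) = 0 → ∃ m : ℝ, ∀ s t : ℝ, 0 < s → s < ρ → 0 < t → t < ρ →
        coord F o u w (z.1 + s • (1, z.2)) = coord F o u w (z.1 - t • (1, z.2)) →
          1 / s - 1 / t = m

/-- crossing data at `q` : affine coordinates `(x, y) ↦ o + x u + y w`; `x₁, x₂` are the abscissas of
the points of the leaves on the lines; `q` is the point with the abscissa `x₁` on the line `y = 0` -/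
structure Cross (F : ℝ × ℝ → ℝ) (q o u w : ℝ × ℝ) (x₁ x₂ : (ℝ × ℝ) × ℝ → ℝ) (φ ψ : ℝ × ℝ → ℝ) :
    Prop where
  basis : u.1 * w.2 - u.2 * w.1 ≠ 0
  s₁ : ContDiffAt ℝ 20 x₁ ((0, 0), F q)
  s₂ : ContDiffAt ℝ 20 x₂ ((0, 0), F q)
  sφ : ContDiffAt ℝ 20 φ (0, 0)
  sψ : ContDiffAt ℝ 20 ψ (0, 0)
  ψ0 : ψ (0, 0) = 0
  at_q : o + x₁ ((0, 0), F q) • u = q
  b₁ : ∀ᶠ z in 𝓝 (((0, 0), F q) : (ℝ × ℝ) × ℝ),
    fderiv ℝ x₁ z ((0, 1), 0) = x₁ z * fderiv ℝ x₁ z ((1, 0), 0)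
  b₂ : ∀ᶠ z in 𝓝 (((0, 0), F q) : (ℝ × ℝ) × ℝ),
    fderiv ℝ x₂ z ((0, 1), 0) = x₂ z * fderiv ℝ x₂ z ((1, 0), 0)
  rel : ∀ᶠ z in 𝓝 (((0, 0), F q) : (ℝ × ℝ) × ℝ), x₁ z + x₂ z = φ z.1 * (x₁ z * x₂ z) + ψ z.1
  ne : x₁ ((0, 0), F q) ≠ x₂ ((0, 0), F q)
  Pc : fderiv ℝ (fun z => x₁ z * x₂ z) (((0, 0), F q) : (ℝ × ℝ) × ℝ) ((0, 0), 1) ≠ 0
  param : ∀ᶠ p in 𝓝 ((x₁ ((0, 0), F q), 0) : ℝ × ℝ), x₁ ((p.2, 0), coord F o u w p) = p.1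

/-- **CROSS**: crossing data exist at every point of `Ω`.

Proof: `G = coord F o u w` from FRAME, `x₁, x₂` from IMP at `X₁, X₂`, `ξ` from TAN. For `z = ((a, b), c)`
near `((0,0), F q)` the point `p = (ξ, a + b ξ)` is near `0`, `s = |x₂ - ξ|`, `t = |x₁ - ξ|` (or the other
way round) are smaller than `ρ`, so `1/(x₁ - ξ) + 1/(x₂ - ξ) = κ (a, b)` does not depend on `c`;
it is smooth (take `c = F q`). Hence `S (1 + κ ξ) = κ P + 2 ξ + κ ξ²`; `φ = κ / (1 + κ ξ)`,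
`ψ = (2 ξ + κ ξ²) / (1 + κ ξ)`. `Pc`: `P_c = x₂ / G_x(X₁) + x₁ / G_x (X₂)`, both terms have the same
sign. -/
def S_CROSS : Prop := ∀ (Ω : Set (ℝ × ℝ)) (F : ℝ × ℝ → ℝ), Foliation Ω F → Projective Ω F →
  ∀ q ∈ Ω, ∃ o u w x₁ x₂ φ ψ, Cross F q o u w x₁ x₂ φ ψ

/-! ### Conics -/

/-- **CON1**: on the lines `y = a` the functions `S` and `P` are polynomials in `a`, of the form
`S = s₀ + s₁ a + τ(c) (h₀ + h₁ a)`, `P = p₀ + p₁ a + p₂ a² + τ(c) (1 + e₁ a + e₂ a²)`.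

Proof: for `c` near `F q` and `(a, b)` near `0` choose `c', c''` near `c` with `P` different (`Pc`) and apply
`S_T` to the three leaves (`x j w = x₁ (w, c_j)`): `S_aa = 0` near `z₀ = ((0, 0), F q)`. So, as
`S_b = S S_a - P_a`, `P_aaa = (S S_a - S_b)_aa = 0`. On `b = 0`: `S (a, c) = S (0, c) + a S_a (0, c)` and
`P (a, c)` is a quadratic polynomial in `a`. With `c₁ = F q` and `P_a = γ P + δ` (`γ, δ` functions of `a`,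
see SYS1), `P (a, c) - P (a, c₁) = E a * (P (0, c) - P (0, c₁))`, where `E` (the ratio for a fixed third
value `c₂`) is a quadratic polynomial with `E 0 = 1`; `S (a, c) - S (a, c₁) = φ (a, 0) * (P (a, c) - P (a, c₁))`,
so `φ E` is affine in `a`; `τ c = P (0, c) - P (0, c₁)`. -/
def S_CON1 : Prop := S_T → ∀ (F : ℝ × ℝ → ℝ) (q o u w : ℝ × ℝ) (x₁ x₂ : (ℝ × ℝ) × ℝ → ℝ)
  (φ ψ : ℝ × ℝ → ℝ), Cross F q o u w x₁ x₂ φ ψ →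
  ∃ s₀ s₁ h₀ h₁ p₀ p₁ p₂ e₁ e₂ : ℝ, ∃ τ : ℝ → ℝ, ∀ᶠ z in 𝓝 ((0, F q) : ℝ × ℝ),
    x₁ ((z.1, 0), z.2) + x₂ ((z.1, 0), z.2) = s₀ + s₁ * z.1 + τ z.2 * (h₀ + h₁ * z.1) ∧
    x₁ ((z.1, 0), z.2) * x₂ ((z.1, 0), z.2) =
      p₀ + p₁ * z.1 + p₂ * z.1 ^ 2 + τ z.2 * (1 + e₁ * z.1 + e₂ * z.1 ^ 2)

/-- **CON2**: local pencils. Points of the leaf `c` near `q` have coordinates `(x, y)`,
`x = x₁ ((y, 0), c)`, so `0 = x² - S (y, c) x + P (y, c) = Q₁ (x, y) + τ(c) Q₂ (x, y)` with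
`Q₁ = x² - (s₀ + s₁ y) x + p₀ + p₁ y + p₂ y²`, `Q₂ = (1 + e₁ y + e₂ y²) - (h₀ + h₁ y) x`; go back to the
original affine coordinates. -/
def S_CON2 : Prop := ∀ (F : ℝ × ℝ → ℝ) (q o u w : ℝ × ℝ) (x₁ x₂ : (ℝ × ℝ) × ℝ → ℝ)
  (φ ψ : ℝ × ℝ → ℝ), Cross F q o u w x₁ x₂ φ ψ → ContinuousAt F q →
  (∃ s₀ s₁ h₀ h₁ p₀ p₁ p₂ e₁ e₂ : ℝ, ∃ τ : ℝ → ℝ, ∀ᶠ z in 𝓝 ((0, F q) : ℝ × ℝ),
    x₁ ((z.1, 0), z.2) + x₂ ((z.1, 0), z.2) = s₀ + s₁ * z.1 + τ z.2 * (h₀ + h₁ * z.1) ∧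
    x₁ ((z.1, 0), z.2) * x₂ ((z.1, 0), z.2) =
      p₀ + p₁ * z.1 + p₂ * z.1 ^ 2 + τ z.2 * (1 + e₁ * z.1 + e₂ * z.1 ^ 2)) →
  ∃ Q₁ Q₂ : Fin 6 → ℝ, LinearIndependent ℝ ![Q₁, Q₂] ∧ LocPencil F q Q₁ Q₂

/-- **UNIQ**: a curved arc lies on at most one conic. -/
def S_UNIQ : Prop := ∀ (Ω : Set (ℝ × ℝ)) (F : ℝ × ℝ → ℝ), Foliation Ω F → ∀ q ∈ Ω,
  ∀ Q Q' : Fin 6 → ℝ, Q ≠ 0 → (∀ᶠ p in 𝓝 q, F p = F q → quad Q p = 0) →
    (∀ᶠ p in 𝓝 q, F p = F q → quad Q' p = 0) → ∃ c : ℝ, Q' = c • Q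

/-- **GLOB**: one pencil.

Proof: by UNIQ the span of `Q₁, Q₂` at `q` is determined by the leaves near `q` (the leaves near `q` do not
all lie on one conic, since a nonzero quadratic polynomial does not vanish on an open set), so it is
locally constant, hence constant on the connected set `Ω`. -/
def S_GLOB : Prop := S_UNIQ → ∀ (Ω : Set (ℝ × ℝ)) (F : ℝ × ℝ → ℝ), Foliation Ω F → IsConnected Ω →
  (∀ q ∈ Ω, ∃ Q₁ Q₂ : Fin 6 → ℝ, LinearIndependent ℝ ![Q₁, Q₂] ∧ LocPencil F q Q₁ Q₂) →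
  ∃ Q₁ Q₂ : Fin 6 → ℝ, LinearIndependent ℝ ![Q₁, Q₂] ∧ ∀ q ∈ Ω, LocPencil F q Q₁ Q₂

/-- **LEAF1**: a compact leaf lies on one conic of the pencil (connectedness and UNIQ). -/
def S_LEAF1 : Prop := S_UNIQ → ∀ (Ω : Set (ℝ × ℝ)) (F : ℝ × ℝ → ℝ), Foliation Ω F →
  ∀ Q₁ Q₂ : Fin 6 → ℝ, LinearIndependent ℝ ![Q₁, Q₂] → (∀ q ∈ Ω, LocPencil F q Q₁ Q₂) →
  ∀ (K : Set (ℝ × ℝ)) (c : ℝ), CompactLeaf Ω F K c →
  ∃ l m : ℝ, (l ≠ 0 ∨ m ≠ 0) ∧ ∀ p ∈ K, quad (l • Q₁ + m • Q₂) p = 0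

/-- **LEAF2**: a conic which contains a compact leaf has a definite quadratic part: otherwise there is a
direction `v ≠ 0` with `R₃ v₁² + R₄ v₁ v₂ + R₅ v₂² = 0`; at the point `p` of `K` where the linear form
`p ↦ v₁ p₂ - v₂ p₁` is maximal the leaf is tangent to `v`, so `t ↦ R (p + t v)` vanishes identically,
`R` is the product of an affine function vanishing on the line `p + ℝ v` and another affine function, and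
the leaf near `p` has zero curvature at `p` (or `R = 0` on an open set), a contradiction. -/
def S_LEAF2 : Prop := ∀ (Ω : Set (ℝ × ℝ)) (F : ℝ × ℝ → ℝ), Foliation Ω F →
  ∀ (K : Set (ℝ × ℝ)) (c : ℝ), CompactLeaf Ω F K c → ∀ R : Fin 6 → ℝ, R ≠ 0 →
  (∀ p ∈ K, quad R p = 0) → R 4 ^ 2 < 4 * R 3 * R 5

/-- **FULL**: a compact leaf contained in an ellipse is the whole ellipse. -/
def S_FULL : Prop := ∀ (Ω : Set (ℝ × ℝ)) (F : ℝ × ℝ → ℝ), Foliation Ω F →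
  ∀ (K : Set (ℝ × ℝ)) (c : ℝ), CompactLeaf Ω F K c → ∀ R : Fin 6 → ℝ, R 4 ^ 2 < 4 * R 3 * R 5 →
  (∀ p ∈ K, quad R p = 0) → K = {p | quad R p = 0}

/-! ### The theorem -/

/-- The final statement. -/
def Final : Prop := ∀ (Ω : Set (ℝ × ℝ)) (F : ℝ × ℝ → ℝ), Foliation Ω F → IsConnected Ω →
  Projective Ω F → ∃ Q₁ Q₂ : Fin 6 → ℝ, LinearIndependent ℝ ![Q₁, Q₂] ∧
    (∀ q ∈ Ω, LocPencil F q Q₁ Q₂) ∧
    ∀ (K : Set (ℝ × ℝ)) (c : ℝ), CompactLeaf Ω F K c → ∃ l m : ℝ,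
      K = {p | quad (l • Q₁ + m • Q₂) p = 0} ∧
      (l • Q₁ + m • Q₂) 4 ^ 2 < 4 * (l • Q₁ + m • Q₂) 3 * (l • Q₁ + m • Q₂) 5

/-- assembly -/
theorem final (hNORM : S_TN → S_T) (hSYS1 : S_SYS1) (hSYS2 : S_SYS2) (hALG : S_ALG)
    (hCROSS : S_CROSS) (hCON1 : S_CON1) (hCON2 : S_CON2) (hUNIQ : S_UNIQ) (hGLOB : S_GLOB)
    (hLEAF1 : S_LEAF1) (hLEAF2 : S_LEAF2) (hFULL : S_FULL) : Final := by
  have hTN : S_TN := by
    intro x y φ ψ hD h0 h1 j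
    obtain ⟨θ, η, γ, δ, s1, s2, s3, s4, he, hT⟩ := hSYS1 x y φ ψ (0, 0) hD
    obtain ⟨f, e0, e1, hs, ht⟩ := hSYS2 φ ψ θ η γ δ (0, 0) (hD.sφ.of_le (by norm_num))
      (hD.sψ.of_le (by norm_num)) s1 s2 s3 s4 he
    rw [hT j, ← ht]
    exact hALG f (0, 0) hs (by rw [e0]; exact h0) (by rw [e1]; exact h1)
  have hT := hNORM hTN
  intro Ω F hF hc hP
  have hloc : ∀ q ∈ Ω, ∃ Q₁ Q₂ : Fin 6 → ℝ, LinearIndependent ℝ ![Q₁, Q₂] ∧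
      LocPencil F q Q₁ Q₂ := by
    intro q hq
    obtain ⟨o, u, w, x₁, x₂, φ, ψ, hX⟩ := hCROSS Ω F hF hP q hq
    exact hCON2 F q o u w x₁ x₂ φ ψ hX (hF.smooth q hq).continuousAt
      (hCON1 hT F q o u w x₁ x₂ φ ψ hX)
  obtain ⟨Q₁, Q₂, hli, hq⟩ := hGLOB hUNIQ Ω F hF hc hloc
  refine ⟨Q₁, Q₂, hli, hq, fun K c hK => ?_⟩
  obtain ⟨l, m, hlm, h1⟩ := hLEAF1 hUNIQ Ω F hF Q₁ Q₂ hli hq K c hK
  have hR : l • Q₁ + m • Q₂ ≠ 0 := by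
    intro h0
    have h := LinearIndependent.pair_iff.1 hli l m h0
    rcases hlm with h' | h'
    · exact h' h.1
    · exact h' h.2
  have h2 := hLEAF2 Ω F hF K c hK _ hR h1
  exact ⟨l, m, hFULL Ω F hF K c hK _ h2 h1, h2⟩

end

end Pool.Agent.U892.PD
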