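import Pool.Agent.U892.PD.Alg3

set_option autoImplicit false

/-!
# Project PD, package ALG: for a solution of the closed system `T = 0` where `φ = ψ = 0`
-/

open Filter Topology Set
open scoped ContDiff

namespace Pool.Agent.U892.PD.ALG

open Pool.Agent.U892.PD

lemma line {f : ℝ × ℝ → ℝ} {w : ℝ × ℝ} (e : ℝ × ℝ) (h : DifferentiableAt ℝ f w) :
    HasDerivAt (fun t : ℝ => f (w + t • e)) (fderiv ℝ f w e) 0 := by
  have h1 : HasDerivAt (fun t : ℝ => w + t • e) e 0 := by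
    simpa using ((hasDerivAt_id (0 : ℝ)).smul_const e).const_add w
  have h2 : HasFDerivAt f (fderiv ℝ f w) (w + (0 : ℝ) • e) := by simpa using h.hasFDerivAt
  exact h2.comp_hasDerivAt 0 h1

lemma tend (w e : ℝ × ℝ) : Tendsto (fun t : ℝ => w + t • e) (𝓝 0) (𝓝 w) := by
  have h : Continuous (fun t : ℝ => w + t • e) :=
    continuous_const.add (continuous_id.smul continuous_const)
  have := h.tendsto 0
  simpa using this

/-- the derivative of the equation `E (f) = K` -/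
lemma diffeq {E : (Fin 12 → ℝ) → ℝ} {dE : (Fin 12 → ℝ) → (Fin 12 → ℝ) → ℝ}
    (hE : ∀ {g : Fin 12 → ℝ → ℝ} {a v : Fin 12 → ℝ}, (∀ i, HasDerivAt (g i) (a i) 0) →
      (∀ i, g i 0 = v i) → HasDerivAt (fun t => E (fun i => g i t)) (dE v a) 0)
    {f : Fin 12 → ℝ × ℝ → ℝ} {w : ℝ × ℝ} (e : ℝ × ℝ) (hf : ∀ i, DifferentiableAt ℝ (f i) w)
    {K : ℝ × ℝ → ℝ} {k : ℝ} (hK : HasDerivAt (fun t : ℝ => K (w + t • e)) k 0)
    (h0 : ∀ᶠ w' in 𝓝 w, K w' = E (fun i => f i w')) :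
    k = dE (fun i => f i w) (fun i => fderiv ℝ (f i) w e) := by
  have h1 : HasDerivAt (fun t : ℝ => E (fun i => f i (w + t • e)))
      (dE (fun i => f i w) (fun i => fderiv ℝ (f i) w e)) 0 :=
    hE (g := fun i t => f i (w + t • e)) (fun i => line e (hf i)) (fun i => by simp)
  have h2 : (fun t : ℝ => K (w + t • e)) =ᶠ[𝓝 0] fun t : ℝ => E (fun i => f i (w + t • e)) :=
    (tend w e).eventually h0
  exact hK.unique (h1.congr_of_eventuallyEq h2)

/-- `E (f) = 0` near `w` -/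
lemma zero {E : (Fin 12 → ℝ) → ℝ} {dE : (Fin 12 → ℝ) → (Fin 12 → ℝ) → ℝ}
    (hE : ∀ {g : Fin 12 → ℝ → ℝ} {a v : Fin 12 → ℝ}, (∀ i, HasDerivAt (g i) (a i) 0) →
      (∀ i, g i 0 = v i) → HasDerivAt (fun t => E (fun i => g i t)) (dE v a) 0)
    {f : Fin 12 → ℝ × ℝ → ℝ} {w : ℝ × ℝ} (e : ℝ × ℝ) (hf : ∀ i, DifferentiableAt ℝ (f i) w)
    (h0 : ∀ᶠ w' in 𝓝 w, E (fun i => f i w') = 0) :
    dE (fun i => f i w) (fun i => fderiv ℝ (f i) w e) = 0 :=
  (diffeq hE e hf (K := fun _ => 0) (k := 0) (hasDerivAt_const _ _)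
    (h0.mono fun _ h => h.symm)).symm

lemma symm2 {f : ℝ × ℝ → ℝ} {w : ℝ × ℝ} (h : ContDiffAt ℝ 8 f w) :
    db (da f) w = da (db f) w := by
  have h2 : ContDiffAt ℝ 2 f w := h.of_le (by norm_num)
  have hs : IsSymmSndFDerivAt ℝ f w := h2.isSymmSndFDerivAt (by simp)
  have hd : DifferentiableAt ℝ (fderiv ℝ f) w :=
    (h2.fderiv_right (m := 1) (by norm_num)).differentiableAt (by norm_num)
  have e1 : db (da f) w = fderiv ℝ (fderiv ℝ f) w (0, 1) (1, 0) := by
    unfold db da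
    rw [fderiv_clm_apply hd (differentiableAt_const _)]
    simp
  have e2 : da (db f) w = fderiv ℝ (fderiv ℝ f) w (1, 0) (0, 1) := by
    unfold db da
    rw [fderiv_clm_apply hd (differentiableAt_const _)]
    simp
  rw [e1, e2]
  exact hs.eq _ _

lemma sys_eventually {f : Fin 12 → ℝ × ℝ → ℝ} {z : ℝ × ℝ} (h : Sys f z) : ∀ᶠ w in 𝓝 z, Sys f w := by
  have h1 : ∀ᶠ w in 𝓝 z, ∀ i, ContDiffAt ℝ 8 (f i) w :=
    eventually_all.2 fun i => (h.smooth i).eventually (by simp)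
  have h2 : ∀ᶠ w in 𝓝 z, ∀ i : Fin 11, ∀ᶠ w' in 𝓝 w, da (f i.castSucc) w' = va (fun k => f k w') i :=
    eventually_all.2 fun i => (h.a i).eventually_nhds
  have h3 : ∀ᶠ w in 𝓝 z, ∀ i : Fin 11, ∀ᶠ w' in 𝓝 w, db (f i.castSucc) w' = vb (fun k => f k w') i :=
    eventually_all.2 fun i => (h.b i).eventually_nhds
  filter_upwards [h1, h2, h3] with w a b c
  exact ⟨a, b, c⟩

lemma diffAt {f : Fin 12 → ℝ × ℝ → ℝ} {z : ℝ × ℝ} (h : Sys f z) (i : Fin 12) :
    DifferentiableAt ℝ (f i) z := (h.smooth i).differentiableAt (by norm_num)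

lemma pt {f : Fin 12 → ℝ × ℝ → ℝ} {w : ℝ × ℝ} (h : Sys f w) :
    Pt (fun i => f i w) (fun i => fderiv ℝ (f i) w (1, 0)) (fun i => fderiv ℝ (f i) w (0, 1)) := by
  have ha := fun i => (h.a i).self_of_nhds
  have hb := fun i => (h.b i).self_of_nhds
  exact
  { a0 := ha 0, a1 := ha 1, a2 := ha 2, a3 := ha 3, a4 := ha 4, a5 := ha 5, a6 := ha 6, a7 := ha 7,
    a8 := ha 8, a9 := ha 9, a10 := ha 10,
    b0 := hb 0, b1 := hb 1, b2 := hb 2, b3 := hb 3, b4 := hb 4, b5 := hb 5, b6 := hb 6, b7 := hb 7,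
    b8 := hb 8, b9 := hb 9, b10 := hb 10 }

lemma ev_mab {f : Fin 12 → ℝ × ℝ → ℝ} {w : ℝ × ℝ} (h : Sys f w) :
    (1 - f 0 w * f 1 w) * da (f 11) w = XM (fun i => f i w) ∧
    (1 - f 0 w * f 1 w) * db (f 11) w = YM (fun i => f i w) := by
  have hd := diffAt h
  have da9 : DifferentiableAt ℝ (da (f 9)) w := by
    have : ContDiffAt ℝ 1 (da (f 9)) w :=
      (((h.smooth 9).fderiv_right (m := 1) (by norm_num)).clm_apply contDiffAt_const)
    exact this.differentiableAt (by norm_num)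
  have db10 : DifferentiableAt ℝ (db (f 10)) w := by
    have : ContDiffAt ℝ 1 (db (f 10)) w :=
      (((h.smooth 10).fderiv_right (m := 1) (by norm_num)).clm_apply contDiffAt_const)
    exact this.differentiableAt (by norm_num)
  have e1 : da (f 11) w = d_pTaa (fun i => f i w) (fun i => fderiv ℝ (f i) w (0, 1)) := by
    have k1 : db (da (f 9)) w = d_pTaa (fun i => f i w) (fun i => fderiv ℝ (f i) w (0, 1)) := by
      refine diffeq (E := pTaa) h_pTaa (0, 1) hd (line (0, 1) da9) ?_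
      filter_upwards [h.a 9] with w' h'
      have h'' : da (f 9) w' = va (fun k => f k w') 9 := h'
      rw [h'']
      simp only [va, pTaa]
      show f 0 w' * f 11 w' + 4 * f 2 w' * f 10 w' - 6 * f 8 w' * f 6 w' + 3 * f 0 w' * f 8 w' ^ 2
        - 4 * f 4 w' * f 9 w' = _
      ring
    rw [← k1, symm2 (h.smooth 9)]
    have k2 : db (f 9) =ᶠ[𝓝 w] f 11 := h.b 9
    unfold da
    rw [k2.fderiv_eq]
  have e2 : db (f 11) w = d_pTbb (fun i => f i w) (fun i => fderiv ℝ (f i) w (1, 0)) := by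
    have k1 : da (db (f 10)) w = d_pTbb (fun i => f i w) (fun i => fderiv ℝ (f i) w (1, 0)) := by
      refine diffeq (E := pTbb) h_pTbb (1, 0) hd (line (1, 0) db10) ?_
      filter_upwards [h.b 10] with w' h'
      have h'' : db (f 10) w' = vb (fun k => f k w') 10 := h'
      rw [h'']
      simp only [vb, pTbb]
      show f 1 w' * f 11 w' + 4 * f 3 w' * f 10 w' - 6 * f 8 w' * f 7 w' + 3 * f 1 w' * f 8 w' ^ 2
        - 4 * f 5 w' * f 9 w' = _
      ring
    rw [← k1, ← symm2 (h.smooth 10)]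
    have k2 : da (f 10) =ᶠ[𝓝 w] f 11 := h.a 10
    unfold db
    rw [k2.fderiv_eq]
  exact mab (pt h) e1 e2

lemma ev_c0 {f : Fin 12 → ℝ × ℝ → ℝ} {w : ℝ × ℝ} (h : Sys f w) (hne : 1 - f 0 w * f 1 w ≠ 0) :
    C0 (fun i => f i w) = 0 := by
  have hd := diffAt h
  have hev := sys_eventually h
  have daD : DifferentiableAt ℝ (da (f 11)) w := by
    have : ContDiffAt ℝ 1 (da (f 11)) w :=
      (((h.smooth 11).fderiv_right (m := 1) (by norm_num)).clm_apply contDiffAt_const)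
    exact this.differentiableAt (by norm_num)
  have dbD : DifferentiableAt ℝ (db (f 11)) w := by
    have : ContDiffAt ℝ 1 (db (f 11)) w :=
      (((h.smooth 11).fderiv_right (m := 1) (by norm_num)).clm_apply contDiffAt_const)
    exact this.differentiableAt (by norm_num)
  have k1 := diffeq (E := XM) h_XM (0, 1) hd
    (K := fun w' => (1 - f 0 w' * f 1 w') * da (f 11) w')
    ((((line (0, 1) (hd 0)).mul (line (0, 1) (hd 1))).const_sub 1).mul (line (0, 1) daD))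
    (hev.mono fun w' h' => (ev_mab h').1)
  have k2 := diffeq (E := YM) h_YM (1, 0) hd
    (K := fun w' => (1 - f 0 w' * f 1 w') * db (f 11) w')
    ((((line (1, 0) (hd 0)).mul (line (1, 0) (hd 1))).const_sub 1).mul (line (1, 0) dbD))
    (hev.mono fun w' h' => (ev_mab h').2)
  obtain ⟨hA, hB⟩ := ev_mab h
  have hs : fderiv ℝ (da (f 11)) w (0, 1) = fderiv ℝ (db (f 11)) w (1, 0) := symm2 (h.smooth 11)
  refine c0 (pt h) hA hB hne ?_
  simp only [Pi.mul_apply, zero_smul, add_zero] at k1 k2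
  rw [hs] at k1
  simp only [da, db] at k1 k2 ⊢
  rw [← k1, ← k2]
  ring

/-- **Package ALG.** -/
theorem t_ALG : S_ALG := by
  intro f z h z0 z1
  by_contra hT
  have hev := sys_eventually h
  have hne : ∀ᶠ w in 𝓝 z, 1 - f 0 w * f 1 w ≠ 0 := by
    have hc : ContinuousAt (fun w => 1 - f 0 w * f 1 w) z :=
      continuousAt_const.sub ((diffAt h 0).continuousAt.mul (diffAt h 1).continuousAt)
    refine hc.eventually_ne ?_
    simp [z0]
  have hTe : ∀ᶠ w in 𝓝 z, f 8 w ≠ 0 := (diffAt h 8).continuousAt.eventually_ne hT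
  have hc0 : ∀ᶠ w in 𝓝 z, C0 (fun i => f i w) = 0 := by
    filter_upwards [hev, hne] with w hw h1 using ev_c0 hw h1
  have hE : ∀ᶠ w in 𝓝 z, Ea (fun i => f i w) = 0 ∧ Eb (fun i => f i w) = 0 := by
    filter_upwards [hev, hc0.eventually_nhds] with w hw h1
    obtain ⟨hA, hB⟩ := ev_mab hw
    exact eab (pt hw) hA hB h1.self_of_nhds (zero h_C0 (1, 0) (diffAt hw) h1)
      (zero h_C0 (0, 1) (diffAt hw) h1)
  have hab : ∀ᶠ w in 𝓝 z, al (fun i => f i w) = 0 ∧ be (fun i => f i w) = 0 := by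
    filter_upwards [hev, hc0, hE.eventually_nhds, hTe] with w hw h0 h1 h2
    obtain ⟨hA, hB⟩ := ev_mab hw
    exact albe (pt hw) hA hB h2 h0 h1.self_of_nhds.1 h1.self_of_nhds.2
      (zero h_Ea (1, 0) (diffAt hw) (h1.mono fun _ h => h.1))
      (zero h_Ea (0, 1) (diffAt hw) (h1.mono fun _ h => h.1))
      (zero h_Eb (0, 1) (diffAt hw) (h1.mono fun _ h => h.2))
  obtain ⟨hA, hB⟩ := ev_mab h
  exact last (pt h) z0 z1 hT hA hB hc0.self_of_nhds hE.self_of_nhds.1 hE.self_of_nhds.2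
    hab.self_of_nhds.1 hab.self_of_nhds.2
    (zero h_Ea (0, 1) (diffAt h) (hE.mono fun _ h => h.1))
    (zero h_al (1, 0) (diffAt h) (hab.mono fun _ h => h.1))
    (zero h_al (0, 1) (diffAt h) (hab.mono fun _ h => h.1))
    (zero h_be (1, 0) (diffAt h) (hab.mono fun _ h => h.2))
    (zero h_be (0, 1) (diffAt h) (hab.mono fun _ h => h.2))

end Pool.Agent.U892.PD.ALG
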