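import Pool.Agent.U869.PD.LEAF2
import Pool.Agent.U446.PD.GLOB
import Pool.Agent.U354.PD.FULL

set_option autoImplicit false

/-!
# Project PD: curves which are limits of compact leaves
-/

open Filter Topology Set

namespace Pool.Agent.U892.PD.Bd

open Pool.Agent.U892.PD

/-- every ray from an interior point of a compact set meets its frontier -/
lemma chord {D : Set (ℝ × ℝ)} (hK : IsCompact D) {x₀ v : ℝ × ℝ} (hx : x₀ ∈ interior D)
    (hv : v ≠ 0) : ∃ t : ℝ, 0 < t ∧ x₀ + t • v ∈ frontier D := by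
  let T : Set ℝ := {t | 0 ≤ t ∧ x₀ + t • v ∈ D}
  have hcont : Continuous (fun t : ℝ => x₀ + t • v) :=
    continuous_const.add (continuous_id.smul continuous_const)
  have hcl : IsClosed T := (isClosed_Ici (a := (0 : ℝ))).inter (hK.isClosed.preimage hcont)
  have hv0 : 0 < ‖v‖ := norm_pos_iff.2 hv
  obtain ⟨M, hM⟩ := hK.isBounded.exists_norm_le
  have hTb : T ⊆ Icc 0 ((M + ‖x₀‖) / ‖v‖) := by
    rintro t ⟨h0, h1⟩
    refine ⟨h0, ?_⟩
    rw [le_div_iff₀ hv0]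
    have h2 : t • v = (x₀ + t • v) - x₀ := by abel
    have h3 : ‖t • v‖ ≤ M + ‖x₀‖ := by
      rw [h2]
      exact (norm_sub_le _ _).trans (add_le_add_left (hM _ h1) _ |>.trans (le_of_eq (by ring)))
    rwa [norm_smul, Real.norm_eq_abs, abs_of_nonneg h0] at h3
  have hTc : IsCompact T := isCompact_Icc.of_isClosed_subset hcl hTb
  have hT0 : (0 : ℝ) ∈ T := ⟨le_refl _, by simpa using interior_subset hx⟩
  obtain ⟨t, ht, hmax⟩ := hTc.exists_isGreatest ⟨0, hT0⟩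
  have hnot : x₀ + t • v ∉ interior D := by
    intro hi
    have h1 : ∀ᶠ s in 𝓝 t, x₀ + s • v ∈ interior D :=
      hcont.continuousAt.eventually (isOpen_interior.mem_nhds hi)
    obtain ⟨ε, hε, hb⟩ := Metric.eventually_nhds_iff.1 h1
    have h2 : t + ε / 2 ∈ T := by
      refine ⟨by have := ht.1; positivity, interior_subset (hb ?_)⟩
      rw [Real.dist_eq, add_sub_cancel_left, abs_of_pos (by positivity)]
      linarith
    have := hmax h2
    linarith
  have ht0 : t ≠ 0 := by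
    rintro rfl
    exact hnot (by simpa using hx)
  refine ⟨t, lt_of_le_of_ne ht.1 (Ne.symm ht0), ?_⟩
  rw [frontier, hK.isClosed.closure_eq]
  exact ⟨ht.2, hnot⟩

/-- a compact set with interior points whose frontier lies on a conic is a filled ellipse -/
lemma ellipse {D : Set (ℝ × ℝ)} (hK : IsCompact D) (hne : (interior D).Nonempty) {R : Fin 6 → ℝ}
    (hR : R ≠ 0) (h : ∀ p ∈ frontier D, quad R p = 0) :
    frontier D = {p | quad R p = 0} ∧ R 4 ^ 2 < 4 * R 3 * R 5 := by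
  obtain ⟨x₀, hx₀⟩ := hne
  have hneg : ∀ v, Pool.Agent.U354.PD.qf R (-v) = Pool.Agent.U354.PD.qf R v := by
    intro v
    simp [Pool.Agent.U354.PD.qf]
  have hch : ∀ p ∈ interior D, ∀ v : ℝ × ℝ, v ≠ 0 → ∃ t s : ℝ, 0 < t ∧ 0 < s ∧
      x₀ = x₀ ∧ p + t • v ∈ frontier D ∧
      quad R p + t * Pool.Agent.U354.PD.D R p v + t ^ 2 * Pool.Agent.U354.PD.qf R v = 0 ∧
      quad R p - s * Pool.Agent.U354.PD.D R p v + s ^ 2 * Pool.Agent.U354.PD.qf R v = 0 := by
    intro p hp v hv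
    obtain ⟨t, ht, h1⟩ := chord hK hp hv
    obtain ⟨s, hs, h2⟩ := chord hK hp (neg_ne_zero.2 hv)
    have e1 := h _ h1
    have e2 := h _ h2
    rw [Pool.Agent.U354.PD.quad_add] at e1 e2
    rw [Pool.Agent.U354.PD.D_neg, hneg] at e2
    exact ⟨t, s, ht, hs, rfl, h1, e1, by linear_combination e2⟩
  have hdef : R 4 ^ 2 < 4 * R 3 * R 5 := by
    by_contra hn
    obtain ⟨v, hv, h0⟩ := Pool.Agent.U869.PD.exists_dir (R 3) (R 4) (R 5) (not_lt.1 hn)
    have hq : Pool.Agent.U354.PD.qf R v = 0 := h0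
    apply hR
    refine Pool.Agent.U446.PD.quad_zero R x₀ (interior D) (isOpen_interior.mem_nhds hx₀)
      (fun p hp => ?_)
    obtain ⟨t, s, ht, hs, -, -, e1, e2⟩ := hch p hp v hv
    rw [hq] at e1 e2
    have h3 : (s + t) * quad R p = 0 := by linear_combination s * e1 + t * e2
    rcases mul_eq_zero.1 h3 with h4 | h4
    · linarith
    · exact h4
  refine ⟨Subset.antisymm (fun p hp => h p hp) (fun p hp => ?_), hdef⟩
  have hp0 : quad R p = 0 := hp
  by_cases hpx : p = x₀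
  · exfalso
    obtain ⟨t, s, ht, hs, -, -, e1, e2⟩ := hch x₀ hx₀ (1, 0) (by simp)
    rw [← hpx, hp0] at e1 e2
    have hq := Pool.Agent.U354.PD.qf_ne hdef (e := ((1, 0) : ℝ × ℝ)) (by simp)
    have h3 : t * s * (s + t) * Pool.Agent.U354.PD.qf R (1, 0) = 0 := by
      linear_combination s * e1 + t * e2
    have h4 : t * s * (s + t) ≠ 0 := by positivity
    exact (mul_ne_zero h4 hq) h3
  · have hv : p - x₀ ≠ 0 := sub_ne_zero.2 hpx
    obtain ⟨t, s, ht, hs, -, hfr, e1, e2⟩ := hch x₀ hx₀ (p - x₀) hv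
    have hq := Pool.Agent.U354.PD.qf_ne hdef hv
    have e3 : quad R x₀ + 1 * Pool.Agent.U354.PD.D R x₀ (p - x₀)
        + 1 ^ 2 * Pool.Agent.U354.PD.qf R (p - x₀) = 0 := by
      rw [← Pool.Agent.U354.PD.quad_add]
      rw [one_smul, add_sub_cancel]
      exact hp0
    have ht1 : t = 1 := by
      by_contra hne
      have h3 : (t - 1) * ((s + 1) * (t + s)) * Pool.Agent.U354.PD.qf R (p - x₀) = 0 := by
        linear_combination (s + 1) * e1 + (t - 1) * e2 - (t + s) * e3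
      have h4 : (t - 1) * ((s + 1) * (t + s)) ≠ 0 :=
        mul_ne_zero (sub_ne_zero.2 hne) (by positivity)
      exact (mul_ne_zero h4 hq) h3
    rw [ht1, one_smul, add_sub_cancel] at hfr
    exact hfr

/-- limits of ellipses of the pencil lie on one conic of the pencil -/
lemma limit {Q₁ Q₂ : Fin 6 → ℝ} {K : ℕ → Set (ℝ × ℝ)}
    (hKn : ∀ n, ∃ l m : ℝ, K n = {p | quad (l • Q₁ + m • Q₂) p = 0} ∧
      (l • Q₁ + m • Q₂) 4 ^ 2 < 4 * (l • Q₁ + m • Q₂) 3 * (l • Q₁ + m • Q₂) 5) :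
    ∃ l m : ℝ, (l ≠ 0 ∨ m ≠ 0) ∧ ∀ p, (∃ x : ℕ → ℝ × ℝ, (∀ n, x n ∈ K n) ∧
      Tendsto x atTop (𝓝 p)) → quad (l • Q₁ + m • Q₂) p = 0 := by
  choose l m hK hd using hKn
  have hu : ∀ n, ∃ u : ℝ × ℝ, u ∈ Metric.sphere (0 : ℝ × ℝ) 1 ∧
      ∀ p ∈ K n, u.1 * quad Q₁ p + u.2 * quad Q₂ p = 0 := by
    intro n
    have hne : ((l n, m n) : ℝ × ℝ) ≠ 0 := by
      intro h0
      have h1 : l n = 0 := congrArg Prod.fst h0
      have h2 : m n = 0 := congrArg Prod.snd h0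
      have h3 := hd n
      rw [h1, h2] at h3
      simp at h3
    refine ⟨(‖((l n, m n) : ℝ × ℝ)‖)⁻¹ • ((l n, m n) : ℝ × ℝ), ?_, fun p hp => ?_⟩
    · rw [mem_sphere_zero_iff_norm, norm_smul, norm_inv, norm_norm]
      exact inv_mul_cancel₀ (norm_ne_zero_iff.2 hne)
    · rw [hK n] at hp
      have h1 : quad (l n • Q₁ + m n • Q₂) p = 0 := hp
      rw [Pool.Agent.U446.PD.quad_comb] at h1
      simp only [Prod.smul_fst, Prod.smul_snd, smul_eq_mul]
      linear_combination (‖((l n, m n) : ℝ × ℝ)‖)⁻¹ * h1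
  choose u hu1 hu2 using hu
  obtain ⟨a, ha, φ, hφ, hlim⟩ := (isCompact_sphere (0 : ℝ × ℝ) 1).tendsto_subseq hu1
  refine ⟨a.1, a.2, ?_, ?_⟩
  · by_contra hn
    push Not at hn
    have h0 : a = 0 := Prod.ext hn.1 hn.2
    rw [h0] at ha
    simp at ha
  · rintro p ⟨x, hx, hlimx⟩
    rw [Pool.Agent.U446.PD.quad_comb]
    have hc : ∀ Q : Fin 6 → ℝ, Continuous (fun q : ℝ × ℝ => quad Q q) := by
      intro Q
      unfold quad
      fun_prop
    have hxs : Tendsto (fun n => x (φ n)) atTop (𝓝 p) := hlimx.comp hφ.tendsto_atTop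
    have hu1' : Tendsto (fun n => (u (φ n)).1) atTop (𝓝 a.1) :=
      (continuous_fst.tendsto a).comp hlim
    have hu2' : Tendsto (fun n => (u (φ n)).2) atTop (𝓝 a.2) :=
      (continuous_snd.tendsto a).comp hlim
    have t1 : Tendsto (fun n => (u (φ n)).1 * quad Q₁ (x (φ n)) + (u (φ n)).2 * quad Q₂ (x (φ n)))
        atTop (𝓝 (a.1 * quad Q₁ p + a.2 * quad Q₂ p)) :=
      (hu1'.mul (((hc Q₁).tendsto p).comp hxs)).add (hu2'.mul (((hc Q₂).tendsto p).comp hxs))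
    have t2 : (fun n => (u (φ n)).1 * quad Q₁ (x (φ n)) + (u (φ n)).2 * quad Q₂ (x (φ n)))
        = fun _ => (0 : ℝ) := funext fun n => hu2 (φ n) _ (hx (φ n))
    rw [t2] at t1
    exact tendsto_nhds_unique t1 tendsto_const_nhds

end Pool.Agent.U892.PD.Bd
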