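import Pool.Agent.U892.PD.Stm

set_option autoImplicit false

/-!
# Project PD: the polynomials of the closed system (generated)

`v` are the values of the twelve functions of the closed system, `a` their derivatives in some
direction; `d_E v a` is the derivative of the polynomial `E` in this direction.
-/

namespace Pool.Agent.U892.PD.ALG

noncomputable section

open Pool.Agent.U892.PD

/-- `T_aa` -/
def pTaa (v : Fin 12 → ℝ) : ℝ :=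
    (-4) * (v 9 * v 4) + (4) * (v 10 * v 2) + (-6) * (v 6 * v 8) + (1) * (v 11 * v 0)
    + (3) * (v 8 * v 8 * v 0)

/-- derivative of `pTaa` -/
def d_pTaa (v a : Fin 12 → ℝ) : ℝ :=
    (1) * (v 11 * a 0) + (3) * (v 8 * v 8 * a 0) + (4) * (v 10 * a 2) + (-4) * (v 9 * a 4)
    + (-6) * (v 8 * a 6) + (-6) * (v 6 * a 8) + (6) * (v 8 * v 0 * a 8) + (-4) * (v 4 * a 9)
    + (4) * (v 2 * a 10) + (1) * (v 0 * a 11)

lemma h_pTaa {g : Fin 12 → ℝ → ℝ} {a v : Fin 12 → ℝ} (h : ∀ i, HasDerivAt (g i) (a i) 0)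
    (hg : ∀ i, g i 0 = v i) : HasDerivAt (fun t => pTaa (fun i => g i t)) (d_pTaa v a) 0 := by
  refine HasDerivAt.congr_deriv (f := fun t => pTaa (fun i => g i t)) (f' := _)
    (((((((h 9).mul (h 4)).const_mul (-4)).add
      (((h 10).mul (h 2)).const_mul (4))).add
      (((h 6).mul (h 8)).const_mul (-6))).add
      (((h 11).mul (h 0)).const_mul (1))).add
      ((((h 8).mul (h 8)).mul (h 0)).const_mul (3))) ?_
  simp only [hg, Pi.mul_apply, d_pTaa]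
  ring

/-- `T_bb` -/
def pTbb (v : Fin 12 → ℝ) : ℝ :=
    (-4) * (v 9 * v 5) + (4) * (v 10 * v 3) + (-6) * (v 7 * v 8) + (1) * (v 11 * v 1)
    + (3) * (v 8 * v 8 * v 1)

/-- derivative of `pTbb` -/
def d_pTbb (v a : Fin 12 → ℝ) : ℝ :=
    (1) * (v 11 * a 1) + (3) * (v 8 * v 8 * a 1) + (4) * (v 10 * a 3) + (-4) * (v 9 * a 5)
    + (-6) * (v 8 * a 7) + (-6) * (v 7 * a 8) + (6) * (v 8 * v 1 * a 8) + (-4) * (v 5 * a 9)
    + (4) * (v 3 * a 10) + (1) * (v 1 * a 11)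

lemma h_pTbb {g : Fin 12 → ℝ → ℝ} {a v : Fin 12 → ℝ} (h : ∀ i, HasDerivAt (g i) (a i) 0)
    (hg : ∀ i, g i 0 = v i) : HasDerivAt (fun t => pTbb (fun i => g i t)) (d_pTbb v a) 0 := by
  refine HasDerivAt.congr_deriv (f := fun t => pTbb (fun i => g i t)) (f' := _)
    (((((((h 9).mul (h 5)).const_mul (-4)).add
      (((h 10).mul (h 3)).const_mul (4))).add
      (((h 7).mul (h 8)).const_mul (-6))).add
      (((h 11).mul (h 1)).const_mul (1))).add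
      ((((h 8).mul (h 8)).mul (h 1)).const_mul (3))) ?_
  simp only [hg, Pi.mul_apply, d_pTbb]
  ring

/-- `(1 - φ ψ) T_aba` -/
def XM (v : Fin 12 → ℝ) : ℝ :=
    (-10) * (v 9 * v 7 * v 0) + (-10) * (v 9 * v 8) + (20) * (v 9 * v 5 * v 4 * v 0)
    + (-20) * (v 9 * v 5 * v 2) + (-10) * (v 10 * v 6) + (20) * (v 10 * v 8 * v 0)
    + (-20) * (v 10 * v 5 * v 0 * v 2) + (20) * (v 10 * v 3 * v 2) + (-30) * (v 7 * v 8 * v 2)
    + (30) * (v 6 * v 8 * v 5 * v 0) + (-5) * (v 11 * v 5 * v 0 * v 0)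
    + (5) * (v 11 * v 3 * v 0) + (-5) * (v 11 * v 4) + (5) * (v 11 * v 1 * v 2)
    + (-15) * (v 8 * v 8 * v 5 * v 0 * v 0) + (-15) * (v 8 * v 8 * v 3 * v 0)
    + (-15) * (v 8 * v 8 * v 4) + (15) * (v 8 * v 8 * v 1 * v 2)

/-- derivative of `XM` -/
def d_XM (v a : Fin 12 → ℝ) : ℝ :=
    (-10) * (v 9 * v 7 * a 0) + (20) * (v 9 * v 5 * v 4 * a 0) + (20) * (v 10 * v 8 * a 0)
    + (-20) * (v 10 * v 5 * v 2 * a 0) + (30) * (v 6 * v 8 * v 5 * a 0)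
    + (-10) * (v 11 * v 5 * v 0 * a 0) + (5) * (v 11 * v 3 * a 0)
    + (-30) * (v 8 * v 8 * v 5 * v 0 * a 0) + (-15) * (v 8 * v 8 * v 3 * a 0)
    + (5) * (v 11 * v 2 * a 1) + (15) * (v 8 * v 8 * v 2 * a 1) + (-20) * (v 9 * v 5 * a 2)
    + (-20) * (v 10 * v 5 * v 0 * a 2) + (20) * (v 10 * v 3 * a 2) + (-30) * (v 7 * v 8 * a 2)
    + (5) * (v 11 * v 1 * a 2) + (15) * (v 8 * v 8 * v 1 * a 2) + (20) * (v 10 * v 2 * a 3)
    + (5) * (v 11 * v 0 * a 3) + (-15) * (v 8 * v 8 * v 0 * a 3)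
    + (20) * (v 9 * v 5 * v 0 * a 4) + (-5) * (v 11 * a 4) + (-15) * (v 8 * v 8 * a 4)
    + (20) * (v 9 * v 4 * v 0 * a 5) + (-20) * (v 9 * v 2 * a 5)
    + (-20) * (v 10 * v 0 * v 2 * a 5) + (30) * (v 6 * v 8 * v 0 * a 5)
    + (-5) * (v 11 * v 0 * v 0 * a 5) + (-15) * (v 8 * v 8 * v 0 * v 0 * a 5)
    + (-10) * (v 10 * a 6) + (30) * (v 8 * v 5 * v 0 * a 6) + (-10) * (v 9 * v 0 * a 7)
    + (-30) * (v 8 * v 2 * a 7) + (-10) * (v 9 * a 8) + (20) * (v 10 * v 0 * a 8)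
    + (-30) * (v 7 * v 2 * a 8) + (30) * (v 6 * v 5 * v 0 * a 8)
    + (-30) * (v 8 * v 5 * v 0 * v 0 * a 8) + (-30) * (v 8 * v 3 * v 0 * a 8)
    + (-30) * (v 8 * v 4 * a 8) + (30) * (v 8 * v 1 * v 2 * a 8) + (-10) * (v 7 * v 0 * a 9)
    + (-10) * (v 8 * a 9) + (20) * (v 5 * v 4 * v 0 * a 9) + (-20) * (v 5 * v 2 * a 9)
    + (-10) * (v 6 * a 10) + (20) * (v 8 * v 0 * a 10) + (-20) * (v 5 * v 0 * v 2 * a 10)
    + (20) * (v 3 * v 2 * a 10) + (-5) * (v 5 * v 0 * v 0 * a 11) + (5) * (v 3 * v 0 * a 11)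
    + (-5) * (v 4 * a 11) + (5) * (v 1 * v 2 * a 11)

lemma h_XM {g : Fin 12 → ℝ → ℝ} {a v : Fin 12 → ℝ} (h : ∀ i, HasDerivAt (g i) (a i) 0)
    (hg : ∀ i, g i 0 = v i) : HasDerivAt (fun t => XM (fun i => g i t)) (d_XM v a) 0 := by
  refine HasDerivAt.congr_deriv (f := fun t => XM (fun i => g i t)) (f' := _)
    (((((((((((((((((((((h 9).mul (h 7)).mul (h 0)).const_mul (-10)).add
      (((h 9).mul (h 8)).const_mul (-10))).add
      (((((h 9).mul (h 5)).mul (h 4)).mul (h 0)).const_mul (20))).add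
      ((((h 9).mul (h 5)).mul (h 2)).const_mul (-20))).add
      (((h 10).mul (h 6)).const_mul (-10))).add
      ((((h 10).mul (h 8)).mul (h 0)).const_mul (20))).add
      (((((h 10).mul (h 5)).mul (h 0)).mul (h 2)).const_mul (-20))).add
      ((((h 10).mul (h 3)).mul (h 2)).const_mul (20))).add
      ((((h 7).mul (h 8)).mul (h 2)).const_mul (-30))).add
      (((((h 6).mul (h 8)).mul (h 5)).mul (h 0)).const_mul (30))).add
      (((((h 11).mul (h 5)).mul (h 0)).mul (h 0)).const_mul (-5))).add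
      ((((h 11).mul (h 3)).mul (h 0)).const_mul (5))).add
      (((h 11).mul (h 4)).const_mul (-5))).add
      ((((h 11).mul (h 1)).mul (h 2)).const_mul (5))).add
      ((((((h 8).mul (h 8)).mul (h 5)).mul (h 0)).mul (h 0)).const_mul (-15))).add
      (((((h 8).mul (h 8)).mul (h 3)).mul (h 0)).const_mul (-15))).add
      ((((h 8).mul (h 8)).mul (h 4)).const_mul (-15))).add
      (((((h 8).mul (h 8)).mul (h 1)).mul (h 2)).const_mul (15))) ?_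
  simp only [hg, Pi.mul_apply, d_XM]
  ring

/-- `(1 - φ ψ) T_abb` -/
def YM (v : Fin 12 → ℝ) : ℝ :=
    (-10) * (v 9 * v 7) + (-10) * (v 9 * v 8 * v 1) + (20) * (v 9 * v 5 * v 4)
    + (-20) * (v 9 * v 5 * v 1 * v 2) + (-10) * (v 10 * v 6 * v 1) + (10) * (v 10 * v 8)
    + (10) * (v 10 * v 8 * v 0 * v 1) + (-20) * (v 10 * v 5 * v 2)
    + (20) * (v 10 * v 3 * v 1 * v 2) + (-30) * (v 7 * v 8 * v 1 * v 2)
    + (30) * (v 6 * v 8 * v 5) + (-5) * (v 11 * v 5 * v 0) + (5) * (v 11 * v 3)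
    + (-5) * (v 11 * v 4 * v 1) + (5) * (v 11 * v 1 * v 1 * v 2)
    + (-15) * (v 8 * v 8 * v 5 * v 0) + (-15) * (v 8 * v 8 * v 3)
    + (-15) * (v 8 * v 8 * v 4 * v 1) + (15) * (v 8 * v 8 * v 1 * v 1 * v 2)

/-- derivative of `YM` -/
def d_YM (v a : Fin 12 → ℝ) : ℝ :=
    (10) * (v 10 * v 8 * v 1 * a 0) + (-5) * (v 11 * v 5 * a 0)
    + (-15) * (v 8 * v 8 * v 5 * a 0) + (-10) * (v 9 * v 8 * a 1)
    + (-20) * (v 9 * v 5 * v 2 * a 1) + (-10) * (v 10 * v 6 * a 1)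
    + (10) * (v 10 * v 8 * v 0 * a 1) + (20) * (v 10 * v 3 * v 2 * a 1)
    + (-30) * (v 7 * v 8 * v 2 * a 1) + (-5) * (v 11 * v 4 * a 1)
    + (10) * (v 11 * v 1 * v 2 * a 1) + (-15) * (v 8 * v 8 * v 4 * a 1)
    + (30) * (v 8 * v 8 * v 1 * v 2 * a 1) + (-20) * (v 9 * v 5 * v 1 * a 2)
    + (-20) * (v 10 * v 5 * a 2) + (20) * (v 10 * v 3 * v 1 * a 2)
    + (-30) * (v 7 * v 8 * v 1 * a 2) + (5) * (v 11 * v 1 * v 1 * a 2)
    + (15) * (v 8 * v 8 * v 1 * v 1 * a 2) + (20) * (v 10 * v 1 * v 2 * a 3)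
    + (5) * (v 11 * a 3) + (-15) * (v 8 * v 8 * a 3) + (20) * (v 9 * v 5 * a 4)
    + (-5) * (v 11 * v 1 * a 4) + (-15) * (v 8 * v 8 * v 1 * a 4) + (20) * (v 9 * v 4 * a 5)
    + (-20) * (v 9 * v 1 * v 2 * a 5) + (-20) * (v 10 * v 2 * a 5) + (30) * (v 6 * v 8 * a 5)
    + (-5) * (v 11 * v 0 * a 5) + (-15) * (v 8 * v 8 * v 0 * a 5) + (-10) * (v 10 * v 1 * a 6)
    + (30) * (v 8 * v 5 * a 6) + (-10) * (v 9 * a 7) + (-30) * (v 8 * v 1 * v 2 * a 7)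
    + (-10) * (v 9 * v 1 * a 8) + (10) * (v 10 * a 8) + (10) * (v 10 * v 0 * v 1 * a 8)
    + (-30) * (v 7 * v 1 * v 2 * a 8) + (30) * (v 6 * v 5 * a 8)
    + (-30) * (v 8 * v 5 * v 0 * a 8) + (-30) * (v 8 * v 3 * a 8)
    + (-30) * (v 8 * v 4 * v 1 * a 8) + (30) * (v 8 * v 1 * v 1 * v 2 * a 8)
    + (-10) * (v 7 * a 9) + (-10) * (v 8 * v 1 * a 9) + (20) * (v 5 * v 4 * a 9)
    + (-20) * (v 5 * v 1 * v 2 * a 9) + (-10) * (v 6 * v 1 * a 10) + (10) * (v 8 * a 10)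
    + (10) * (v 8 * v 0 * v 1 * a 10) + (-20) * (v 5 * v 2 * a 10)
    + (20) * (v 3 * v 1 * v 2 * a 10) + (-5) * (v 5 * v 0 * a 11) + (5) * (v 3 * a 11)
    + (-5) * (v 4 * v 1 * a 11) + (5) * (v 1 * v 1 * v 2 * a 11)

lemma h_YM {g : Fin 12 → ℝ → ℝ} {a v : Fin 12 → ℝ} (h : ∀ i, HasDerivAt (g i) (a i) 0)
    (hg : ∀ i, g i 0 = v i) : HasDerivAt (fun t => YM (fun i => g i t)) (d_YM v a) 0 := by
  refine HasDerivAt.congr_deriv (f := fun t => YM (fun i => g i t)) (f' := _)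
    (((((((((((((((((((((h 9).mul (h 7)).const_mul (-10)).add
      ((((h 9).mul (h 8)).mul (h 1)).const_mul (-10))).add
      ((((h 9).mul (h 5)).mul (h 4)).const_mul (20))).add
      (((((h 9).mul (h 5)).mul (h 1)).mul (h 2)).const_mul (-20))).add
      ((((h 10).mul (h 6)).mul (h 1)).const_mul (-10))).add
      (((h 10).mul (h 8)).const_mul (10))).add
      (((((h 10).mul (h 8)).mul (h 0)).mul (h 1)).const_mul (10))).add
      ((((h 10).mul (h 5)).mul (h 2)).const_mul (-20))).add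
      (((((h 10).mul (h 3)).mul (h 1)).mul (h 2)).const_mul (20))).add
      (((((h 7).mul (h 8)).mul (h 1)).mul (h 2)).const_mul (-30))).add
      ((((h 6).mul (h 8)).mul (h 5)).const_mul (30))).add
      ((((h 11).mul (h 5)).mul (h 0)).const_mul (-5))).add
      (((h 11).mul (h 3)).const_mul (5))).add
      ((((h 11).mul (h 4)).mul (h 1)).const_mul (-5))).add
      (((((h 11).mul (h 1)).mul (h 1)).mul (h 2)).const_mul (5))).add
      (((((h 8).mul (h 8)).mul (h 5)).mul (h 0)).const_mul (-15))).add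
      ((((h 8).mul (h 8)).mul (h 3)).const_mul (-15))).add
      (((((h 8).mul (h 8)).mul (h 4)).mul (h 1)).const_mul (-15))).add
      ((((((h 8).mul (h 8)).mul (h 1)).mul (h 1)).mul (h 2)).const_mul (15))) ?_
  simp only [hg, Pi.mul_apply, d_YM]
  ring

/-- first compatibility condition -/
def C0 (v : Fin 12 → ℝ) : ℝ :=
    (4) * (v 9 * v 10) + (12) * (v 9 * v 8 * v 5 * v 0) + (-12) * (v 9 * v 8 * v 3)
    + (-2) * (v 9 * v 9 * v 1) + (12) * (v 10 * v 8 * v 4) + (-12) * (v 10 * v 8 * v 1 * v 2)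
    + (-2) * (v 10 * v 10 * v 0) + (9) * (v 7 * v 8 * v 8 * v 0) + (9) * (v 6 * v 8 * v 8 * v 1)
    + (3) * (v 11 * v 8) + (-3) * (v 11 * v 8 * v 0 * v 1) + (18) * (v 8 * v 8 * v 5 * v 2)
    + (-18) * (v 8 * v 8 * v 3 * v 4) + (-9) * (v 8 * v 8 * v 8 * v 0 * v 1)

/-- derivative of `C0` -/
def d_C0 (v a : Fin 12 → ℝ) : ℝ :=
    (12) * (v 9 * v 8 * v 5 * a 0) + (-2) * (v 10 * v 10 * a 0) + (9) * (v 7 * v 8 * v 8 * a 0)
    + (-3) * (v 11 * v 8 * v 1 * a 0) + (-9) * (v 8 * v 8 * v 8 * v 1 * a 0)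
    + (-2) * (v 9 * v 9 * a 1) + (-12) * (v 10 * v 8 * v 2 * a 1)
    + (9) * (v 6 * v 8 * v 8 * a 1) + (-3) * (v 11 * v 8 * v 0 * a 1)
    + (-9) * (v 8 * v 8 * v 8 * v 0 * a 1) + (-12) * (v 10 * v 8 * v 1 * a 2)
    + (18) * (v 8 * v 8 * v 5 * a 2) + (-12) * (v 9 * v 8 * a 3)
    + (-18) * (v 8 * v 8 * v 4 * a 3) + (12) * (v 10 * v 8 * a 4)
    + (-18) * (v 8 * v 8 * v 3 * a 4) + (12) * (v 9 * v 8 * v 0 * a 5)
    + (18) * (v 8 * v 8 * v 2 * a 5) + (9) * (v 8 * v 8 * v 1 * a 6)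
    + (9) * (v 8 * v 8 * v 0 * a 7) + (12) * (v 9 * v 5 * v 0 * a 8) + (-12) * (v 9 * v 3 * a 8)
    + (12) * (v 10 * v 4 * a 8) + (-12) * (v 10 * v 1 * v 2 * a 8)
    + (18) * (v 7 * v 8 * v 0 * a 8) + (18) * (v 6 * v 8 * v 1 * a 8) + (3) * (v 11 * a 8)
    + (-3) * (v 11 * v 0 * v 1 * a 8) + (36) * (v 8 * v 5 * v 2 * a 8)
    + (-36) * (v 8 * v 3 * v 4 * a 8) + (-27) * (v 8 * v 8 * v 0 * v 1 * a 8)
    + (-4) * (v 9 * v 1 * a 9) + (4) * (v 10 * a 9) + (12) * (v 8 * v 5 * v 0 * a 9)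
    + (-12) * (v 8 * v 3 * a 9) + (4) * (v 9 * a 10) + (-4) * (v 10 * v 0 * a 10)
    + (12) * (v 8 * v 4 * a 10) + (-12) * (v 8 * v 1 * v 2 * a 10) + (3) * (v 8 * a 11)
    + (-3) * (v 8 * v 0 * v 1 * a 11)

lemma h_C0 {g : Fin 12 → ℝ → ℝ} {a v : Fin 12 → ℝ} (h : ∀ i, HasDerivAt (g i) (a i) 0)
    (hg : ∀ i, g i 0 = v i) : HasDerivAt (fun t => C0 (fun i => g i t)) (d_C0 v a) 0 := by
  refine HasDerivAt.congr_deriv (f := fun t => C0 (fun i => g i t)) (f' := _)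
    ((((((((((((((((h 9).mul (h 10)).const_mul (4)).add
      (((((h 9).mul (h 8)).mul (h 5)).mul (h 0)).const_mul (12))).add
      ((((h 9).mul (h 8)).mul (h 3)).const_mul (-12))).add
      ((((h 9).mul (h 9)).mul (h 1)).const_mul (-2))).add
      ((((h 10).mul (h 8)).mul (h 4)).const_mul (12))).add
      (((((h 10).mul (h 8)).mul (h 1)).mul (h 2)).const_mul (-12))).add
      ((((h 10).mul (h 10)).mul (h 0)).const_mul (-2))).add
      (((((h 7).mul (h 8)).mul (h 8)).mul (h 0)).const_mul (9))).add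
      (((((h 6).mul (h 8)).mul (h 8)).mul (h 1)).const_mul (9))).add
      (((h 11).mul (h 8)).const_mul (3))).add
      (((((h 11).mul (h 8)).mul (h 0)).mul (h 1)).const_mul (-3))).add
      (((((h 8).mul (h 8)).mul (h 5)).mul (h 2)).const_mul (18))).add
      (((((h 8).mul (h 8)).mul (h 3)).mul (h 4)).const_mul (-18))).add
      ((((((h 8).mul (h 8)).mul (h 8)).mul (h 0)).mul (h 1)).const_mul (-9))) ?_
  simp only [hg, Pi.mul_apply, d_C0]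
  ring

/-- its derivative, simplified -/
def Ea (v : Fin 12 → ℝ) : ℝ :=
    (-4) * (v 9 * v 10 * v 1 * v 2) + (6) * (v 9 * v 6 * v 8 * v 1) + (1) * (v 9 * v 11)
    + (-1) * (v 9 * v 11 * v 0 * v 1) + (-6) * (v 9 * v 8 * v 8)
    + (-3) * (v 9 * v 8 * v 8 * v 0 * v 1) + (2) * (v 9 * v 9 * v 5 * v 0)
    + (-2) * (v 9 * v 9 * v 3) + (2) * (v 9 * v 9 * v 4 * v 1) + (-6) * (v 10 * v 6 * v 8)
    + (9) * (v 10 * v 8 * v 8 * v 0) + (2) * (v 10 * v 10 * v 2)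
    + (-9) * (v 7 * v 8 * v 8 * v 2) + (9) * (v 6 * v 8 * v 8 * v 3)
    + (-9) * (v 8 * v 8 * v 8 * v 3 * v 0) + (-9) * (v 8 * v 8 * v 8 * v 4)
    + (9) * (v 8 * v 8 * v 8 * v 1 * v 2)

/-- derivative of `Ea` -/
def d_Ea (v a : Fin 12 → ℝ) : ℝ :=
    (-1) * (v 9 * v 11 * v 1 * a 0) + (-3) * (v 9 * v 8 * v 8 * v 1 * a 0)
    + (2) * (v 9 * v 9 * v 5 * a 0) + (9) * (v 10 * v 8 * v 8 * a 0)
    + (-9) * (v 8 * v 8 * v 8 * v 3 * a 0) + (-4) * (v 9 * v 10 * v 2 * a 1)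
    + (6) * (v 9 * v 6 * v 8 * a 1) + (-1) * (v 9 * v 11 * v 0 * a 1)
    + (-3) * (v 9 * v 8 * v 8 * v 0 * a 1) + (2) * (v 9 * v 9 * v 4 * a 1)
    + (9) * (v 8 * v 8 * v 8 * v 2 * a 1) + (-4) * (v 9 * v 10 * v 1 * a 2)
    + (2) * (v 10 * v 10 * a 2) + (-9) * (v 7 * v 8 * v 8 * a 2)
    + (9) * (v 8 * v 8 * v 8 * v 1 * a 2) + (-2) * (v 9 * v 9 * a 3)
    + (9) * (v 6 * v 8 * v 8 * a 3) + (-9) * (v 8 * v 8 * v 8 * v 0 * a 3)
    + (2) * (v 9 * v 9 * v 1 * a 4) + (-9) * (v 8 * v 8 * v 8 * a 4)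
    + (2) * (v 9 * v 9 * v 0 * a 5) + (6) * (v 9 * v 8 * v 1 * a 6) + (-6) * (v 10 * v 8 * a 6)
    + (9) * (v 8 * v 8 * v 3 * a 6) + (-9) * (v 8 * v 8 * v 2 * a 7)
    + (6) * (v 9 * v 6 * v 1 * a 8) + (-12) * (v 9 * v 8 * a 8)
    + (-6) * (v 9 * v 8 * v 0 * v 1 * a 8) + (-6) * (v 10 * v 6 * a 8)
    + (18) * (v 10 * v 8 * v 0 * a 8) + (-18) * (v 7 * v 8 * v 2 * a 8)
    + (18) * (v 6 * v 8 * v 3 * a 8) + (-27) * (v 8 * v 8 * v 3 * v 0 * a 8)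
    + (-27) * (v 8 * v 8 * v 4 * a 8) + (27) * (v 8 * v 8 * v 1 * v 2 * a 8)
    + (4) * (v 9 * v 5 * v 0 * a 9) + (-4) * (v 9 * v 3 * a 9) + (4) * (v 9 * v 4 * v 1 * a 9)
    + (-4) * (v 10 * v 1 * v 2 * a 9) + (6) * (v 6 * v 8 * v 1 * a 9) + (1) * (v 11 * a 9)
    + (-1) * (v 11 * v 0 * v 1 * a 9) + (-6) * (v 8 * v 8 * a 9)
    + (-3) * (v 8 * v 8 * v 0 * v 1 * a 9) + (-4) * (v 9 * v 1 * v 2 * a 10)
    + (4) * (v 10 * v 2 * a 10) + (-6) * (v 6 * v 8 * a 10) + (9) * (v 8 * v 8 * v 0 * a 10)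
    + (1) * (v 9 * a 11) + (-1) * (v 9 * v 0 * v 1 * a 11)

lemma h_Ea {g : Fin 12 → ℝ → ℝ} {a v : Fin 12 → ℝ} (h : ∀ i, HasDerivAt (g i) (a i) 0)
    (hg : ∀ i, g i 0 = v i) : HasDerivAt (fun t => Ea (fun i => g i t)) (d_Ea v a) 0 := by
  refine HasDerivAt.congr_deriv (f := fun t => Ea (fun i => g i t)) (f' := _)
    (((((((((((((((((((((h 9).mul (h 10)).mul (h 1)).mul (h 2)).const_mul (-4)).add
      (((((h 9).mul (h 6)).mul (h 8)).mul (h 1)).const_mul (6))).add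
      (((h 9).mul (h 11)).const_mul (1))).add
      (((((h 9).mul (h 11)).mul (h 0)).mul (h 1)).const_mul (-1))).add
      ((((h 9).mul (h 8)).mul (h 8)).const_mul (-6))).add
      ((((((h 9).mul (h 8)).mul (h 8)).mul (h 0)).mul (h 1)).const_mul (-3))).add
      (((((h 9).mul (h 9)).mul (h 5)).mul (h 0)).const_mul (2))).add
      ((((h 9).mul (h 9)).mul (h 3)).const_mul (-2))).add
      (((((h 9).mul (h 9)).mul (h 4)).mul (h 1)).const_mul (2))).add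
      ((((h 10).mul (h 6)).mul (h 8)).const_mul (-6))).add
      (((((h 10).mul (h 8)).mul (h 8)).mul (h 0)).const_mul (9))).add
      ((((h 10).mul (h 10)).mul (h 2)).const_mul (2))).add
      (((((h 7).mul (h 8)).mul (h 8)).mul (h 2)).const_mul (-9))).add
      (((((h 6).mul (h 8)).mul (h 8)).mul (h 3)).const_mul (9))).add
      ((((((h 8).mul (h 8)).mul (h 8)).mul (h 3)).mul (h 0)).const_mul (-9))).add
      (((((h 8).mul (h 8)).mul (h 8)).mul (h 4)).const_mul (-9))).add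
      ((((((h 8).mul (h 8)).mul (h 8)).mul (h 1)).mul (h 2)).const_mul (9))) ?_
  simp only [hg, Pi.mul_apply, d_Ea]
  ring

/-- its derivative, simplified -/
def Eb (v : Fin 12 → ℝ) : ℝ :=
    (4) * (v 9 * v 10 * v 5 * v 0) + (-6) * (v 9 * v 7 * v 8) + (-3) * (v 9 * v 8 * v 8 * v 1)
    + (-2) * (v 9 * v 9 * v 5) + (6) * (v 10 * v 7 * v 8 * v 0) + (1) * (v 10 * v 11)
    + (-1) * (v 10 * v 11 * v 0 * v 1) + (6) * (v 10 * v 8 * v 8)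
    + (-3) * (v 10 * v 8 * v 8 * v 0 * v 1) + (-2) * (v 10 * v 10 * v 3 * v 0)
    + (2) * (v 10 * v 10 * v 4) + (-2) * (v 10 * v 10 * v 1 * v 2)
    + (-9) * (v 7 * v 8 * v 8 * v 4) + (9) * (v 6 * v 8 * v 8 * v 5)
    + (-9) * (v 8 * v 8 * v 8 * v 3)

/-- derivative of `Eb` -/
def d_Eb (v a : Fin 12 → ℝ) : ℝ :=
    (4) * (v 9 * v 10 * v 5 * a 0) + (6) * (v 10 * v 7 * v 8 * a 0)
    + (-1) * (v 10 * v 11 * v 1 * a 0) + (-3) * (v 10 * v 8 * v 8 * v 1 * a 0)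
    + (-2) * (v 10 * v 10 * v 3 * a 0) + (-3) * (v 9 * v 8 * v 8 * a 1)
    + (-1) * (v 10 * v 11 * v 0 * a 1) + (-3) * (v 10 * v 8 * v 8 * v 0 * a 1)
    + (-2) * (v 10 * v 10 * v 2 * a 1) + (-2) * (v 10 * v 10 * v 1 * a 2)
    + (-2) * (v 10 * v 10 * v 0 * a 3) + (-9) * (v 8 * v 8 * v 8 * a 3)
    + (2) * (v 10 * v 10 * a 4) + (-9) * (v 7 * v 8 * v 8 * a 4)
    + (4) * (v 9 * v 10 * v 0 * a 5) + (-2) * (v 9 * v 9 * a 5) + (9) * (v 6 * v 8 * v 8 * a 5)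
    + (9) * (v 8 * v 8 * v 5 * a 6) + (-6) * (v 9 * v 8 * a 7) + (6) * (v 10 * v 8 * v 0 * a 7)
    + (-9) * (v 8 * v 8 * v 4 * a 7) + (-6) * (v 9 * v 7 * a 8) + (-6) * (v 9 * v 8 * v 1 * a 8)
    + (6) * (v 10 * v 7 * v 0 * a 8) + (12) * (v 10 * v 8 * a 8)
    + (-6) * (v 10 * v 8 * v 0 * v 1 * a 8) + (-18) * (v 7 * v 8 * v 4 * a 8)
    + (18) * (v 6 * v 8 * v 5 * a 8) + (-27) * (v 8 * v 8 * v 3 * a 8)
    + (-4) * (v 9 * v 5 * a 9) + (4) * (v 10 * v 5 * v 0 * a 9) + (-6) * (v 7 * v 8 * a 9)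
    + (-3) * (v 8 * v 8 * v 1 * a 9) + (4) * (v 9 * v 5 * v 0 * a 10)
    + (-4) * (v 10 * v 3 * v 0 * a 10) + (4) * (v 10 * v 4 * a 10)
    + (-4) * (v 10 * v 1 * v 2 * a 10) + (6) * (v 7 * v 8 * v 0 * a 10) + (1) * (v 11 * a 10)
    + (-1) * (v 11 * v 0 * v 1 * a 10) + (6) * (v 8 * v 8 * a 10)
    + (-3) * (v 8 * v 8 * v 0 * v 1 * a 10) + (1) * (v 10 * a 11)
    + (-1) * (v 10 * v 0 * v 1 * a 11)

lemma h_Eb {g : Fin 12 → ℝ → ℝ} {a v : Fin 12 → ℝ} (h : ∀ i, HasDerivAt (g i) (a i) 0)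
    (hg : ∀ i, g i 0 = v i) : HasDerivAt (fun t => Eb (fun i => g i t)) (d_Eb v a) 0 := by
  refine HasDerivAt.congr_deriv (f := fun t => Eb (fun i => g i t)) (f' := _)
    (((((((((((((((((((h 9).mul (h 10)).mul (h 5)).mul (h 0)).const_mul (4)).add
      ((((h 9).mul (h 7)).mul (h 8)).const_mul (-6))).add
      (((((h 9).mul (h 8)).mul (h 8)).mul (h 1)).const_mul (-3))).add
      ((((h 9).mul (h 9)).mul (h 5)).const_mul (-2))).add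
      (((((h 10).mul (h 7)).mul (h 8)).mul (h 0)).const_mul (6))).add
      (((h 10).mul (h 11)).const_mul (1))).add
      (((((h 10).mul (h 11)).mul (h 0)).mul (h 1)).const_mul (-1))).add
      ((((h 10).mul (h 8)).mul (h 8)).const_mul (6))).add
      ((((((h 10).mul (h 8)).mul (h 8)).mul (h 0)).mul (h 1)).const_mul (-3))).add
      (((((h 10).mul (h 10)).mul (h 3)).mul (h 0)).const_mul (-2))).add
      ((((h 10).mul (h 10)).mul (h 4)).const_mul (2))).add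
      (((((h 10).mul (h 10)).mul (h 1)).mul (h 2)).const_mul (-2))).add
      (((((h 7).mul (h 8)).mul (h 8)).mul (h 4)).const_mul (-9))).add
      (((((h 6).mul (h 8)).mul (h 8)).mul (h 5)).const_mul (9))).add
      (((((h 8).mul (h 8)).mul (h 8)).mul (h 3)).const_mul (-9))) ?_
  simp only [hg, Pi.mul_apply, d_Eb]
  ring

/-- second derivatives, simplified -/
def al (v : Fin 12 → ℝ) : ℝ :=
    (4) * (v 9 * v 10 * v 0) + (-12) * (v 9 * v 8 * v 4) + (12) * (v 9 * v 8 * v 1 * v 2)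
    + (-4) * (v 9 * v 9) + (2) * (v 9 * v 9 * v 0 * v 1) + (12) * (v 10 * v 8 * v 4 * v 0)
    + (-12) * (v 10 * v 8 * v 2) + (-2) * (v 10 * v 10 * v 0 * v 0)
    + (3) * (v 7 * v 8 * v 8 * v 0 * v 0) + (6) * (v 6 * v 8 * v 8)
    + (-3) * (v 6 * v 8 * v 8 * v 0 * v 1) + (-6) * (v 8 * v 8 * v 5 * v 0 * v 2)
    + (-6) * (v 8 * v 8 * v 3 * v 4 * v 0) + (12) * (v 8 * v 8 * v 3 * v 2)
    + (12) * (v 8 * v 8 * v 4 * v 1 * v 2) + (-12) * (v 8 * v 8 * v 4 * v 4)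
    + (-3) * (v 8 * v 8 * v 8 * v 0)

/-- derivative of `al` -/
def d_al (v a : Fin 12 → ℝ) : ℝ :=
    (4) * (v 9 * v 10 * a 0) + (2) * (v 9 * v 9 * v 1 * a 0) + (12) * (v 10 * v 8 * v 4 * a 0)
    + (-4) * (v 10 * v 10 * v 0 * a 0) + (6) * (v 7 * v 8 * v 8 * v 0 * a 0)
    + (-3) * (v 6 * v 8 * v 8 * v 1 * a 0) + (-6) * (v 8 * v 8 * v 5 * v 2 * a 0)
    + (-6) * (v 8 * v 8 * v 3 * v 4 * a 0) + (-3) * (v 8 * v 8 * v 8 * a 0)
    + (12) * (v 9 * v 8 * v 2 * a 1) + (2) * (v 9 * v 9 * v 0 * a 1)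
    + (-3) * (v 6 * v 8 * v 8 * v 0 * a 1) + (12) * (v 8 * v 8 * v 4 * v 2 * a 1)
    + (12) * (v 9 * v 8 * v 1 * a 2) + (-12) * (v 10 * v 8 * a 2)
    + (-6) * (v 8 * v 8 * v 5 * v 0 * a 2) + (12) * (v 8 * v 8 * v 3 * a 2)
    + (12) * (v 8 * v 8 * v 4 * v 1 * a 2) + (-6) * (v 8 * v 8 * v 4 * v 0 * a 3)
    + (12) * (v 8 * v 8 * v 2 * a 3) + (-12) * (v 9 * v 8 * a 4)
    + (12) * (v 10 * v 8 * v 0 * a 4) + (-6) * (v 8 * v 8 * v 3 * v 0 * a 4)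
    + (-24) * (v 8 * v 8 * v 4 * a 4) + (12) * (v 8 * v 8 * v 1 * v 2 * a 4)
    + (-6) * (v 8 * v 8 * v 0 * v 2 * a 5) + (6) * (v 8 * v 8 * a 6)
    + (-3) * (v 8 * v 8 * v 0 * v 1 * a 6) + (3) * (v 8 * v 8 * v 0 * v 0 * a 7)
    + (-12) * (v 9 * v 4 * a 8) + (12) * (v 9 * v 1 * v 2 * a 8)
    + (12) * (v 10 * v 4 * v 0 * a 8) + (-12) * (v 10 * v 2 * a 8)
    + (6) * (v 7 * v 8 * v 0 * v 0 * a 8) + (12) * (v 6 * v 8 * a 8)
    + (-6) * (v 6 * v 8 * v 0 * v 1 * a 8) + (-12) * (v 8 * v 5 * v 0 * v 2 * a 8)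
    + (-12) * (v 8 * v 3 * v 4 * v 0 * a 8) + (24) * (v 8 * v 3 * v 2 * a 8)
    + (24) * (v 8 * v 4 * v 1 * v 2 * a 8) + (-24) * (v 8 * v 4 * v 4 * a 8)
    + (-9) * (v 8 * v 8 * v 0 * a 8) + (-8) * (v 9 * a 9) + (4) * (v 9 * v 0 * v 1 * a 9)
    + (4) * (v 10 * v 0 * a 9) + (-12) * (v 8 * v 4 * a 9) + (12) * (v 8 * v 1 * v 2 * a 9)
    + (4) * (v 9 * v 0 * a 10) + (-4) * (v 10 * v 0 * v 0 * a 10)
    + (12) * (v 8 * v 4 * v 0 * a 10) + (-12) * (v 8 * v 2 * a 10)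

lemma h_al {g : Fin 12 → ℝ → ℝ} {a v : Fin 12 → ℝ} (h : ∀ i, HasDerivAt (g i) (a i) 0)
    (hg : ∀ i, g i 0 = v i) : HasDerivAt (fun t => al (fun i => g i t)) (d_al v a) 0 := by
  refine HasDerivAt.congr_deriv (f := fun t => al (fun i => g i t)) (f' := _)
    ((((((((((((((((((((h 9).mul (h 10)).mul (h 0)).const_mul (4)).add
      ((((h 9).mul (h 8)).mul (h 4)).const_mul (-12))).add
      (((((h 9).mul (h 8)).mul (h 1)).mul (h 2)).const_mul (12))).add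
      (((h 9).mul (h 9)).const_mul (-4))).add
      (((((h 9).mul (h 9)).mul (h 0)).mul (h 1)).const_mul (2))).add
      (((((h 10).mul (h 8)).mul (h 4)).mul (h 0)).const_mul (12))).add
      ((((h 10).mul (h 8)).mul (h 2)).const_mul (-12))).add
      (((((h 10).mul (h 10)).mul (h 0)).mul (h 0)).const_mul (-2))).add
      ((((((h 7).mul (h 8)).mul (h 8)).mul (h 0)).mul (h 0)).const_mul (3))).add
      ((((h 6).mul (h 8)).mul (h 8)).const_mul (6))).add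
      ((((((h 6).mul (h 8)).mul (h 8)).mul (h 0)).mul (h 1)).const_mul (-3))).add
      ((((((h 8).mul (h 8)).mul (h 5)).mul (h 0)).mul (h 2)).const_mul (-6))).add
      ((((((h 8).mul (h 8)).mul (h 3)).mul (h 4)).mul (h 0)).const_mul (-6))).add
      (((((h 8).mul (h 8)).mul (h 3)).mul (h 2)).const_mul (12))).add
      ((((((h 8).mul (h 8)).mul (h 4)).mul (h 1)).mul (h 2)).const_mul (12))).add
      (((((h 8).mul (h 8)).mul (h 4)).mul (h 4)).const_mul (-12))).add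
      (((((h 8).mul (h 8)).mul (h 8)).mul (h 0)).const_mul (-3))) ?_
  simp only [hg, Pi.mul_apply, d_al]
  ring

/-- second derivatives, simplified -/
def be (v : Fin 12 → ℝ) : ℝ :=
    (-4) * (v 9 * v 10 * v 1) + (-12) * (v 9 * v 8 * v 5) + (12) * (v 9 * v 8 * v 3 * v 1)
    + (2) * (v 9 * v 9 * v 1 * v 1) + (12) * (v 10 * v 8 * v 5 * v 0)
    + (-12) * (v 10 * v 8 * v 3) + (4) * (v 10 * v 10) + (-2) * (v 10 * v 10 * v 0 * v 1)
    + (-6) * (v 7 * v 8 * v 8) + (3) * (v 7 * v 8 * v 8 * v 0 * v 1)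
    + (-3) * (v 6 * v 8 * v 8 * v 1 * v 1) + (-12) * (v 8 * v 8 * v 5 * v 3 * v 0)
    + (-12) * (v 8 * v 8 * v 5 * v 4) + (6) * (v 8 * v 8 * v 5 * v 1 * v 2)
    + (6) * (v 8 * v 8 * v 3 * v 4 * v 1) + (12) * (v 8 * v 8 * v 3 * v 3)
    + (3) * (v 8 * v 8 * v 8 * v 1)

/-- derivative of `be` -/
def d_be (v a : Fin 12 → ℝ) : ℝ :=
    (12) * (v 10 * v 8 * v 5 * a 0) + (-2) * (v 10 * v 10 * v 1 * a 0)
    + (3) * (v 7 * v 8 * v 8 * v 1 * a 0) + (-12) * (v 8 * v 8 * v 5 * v 3 * a 0)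
    + (-4) * (v 9 * v 10 * a 1) + (12) * (v 9 * v 8 * v 3 * a 1) + (4) * (v 9 * v 9 * v 1 * a 1)
    + (-2) * (v 10 * v 10 * v 0 * a 1) + (3) * (v 7 * v 8 * v 8 * v 0 * a 1)
    + (-6) * (v 6 * v 8 * v 8 * v 1 * a 1) + (6) * (v 8 * v 8 * v 5 * v 2 * a 1)
    + (6) * (v 8 * v 8 * v 3 * v 4 * a 1) + (3) * (v 8 * v 8 * v 8 * a 1)
    + (6) * (v 8 * v 8 * v 5 * v 1 * a 2) + (12) * (v 9 * v 8 * v 1 * a 3)
    + (-12) * (v 10 * v 8 * a 3) + (-12) * (v 8 * v 8 * v 5 * v 0 * a 3)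
    + (24) * (v 8 * v 8 * v 3 * a 3) + (6) * (v 8 * v 8 * v 4 * v 1 * a 3)
    + (-12) * (v 8 * v 8 * v 5 * a 4) + (6) * (v 8 * v 8 * v 3 * v 1 * a 4)
    + (-12) * (v 9 * v 8 * a 5) + (12) * (v 10 * v 8 * v 0 * a 5)
    + (-12) * (v 8 * v 8 * v 3 * v 0 * a 5) + (-12) * (v 8 * v 8 * v 4 * a 5)
    + (6) * (v 8 * v 8 * v 1 * v 2 * a 5) + (-3) * (v 8 * v 8 * v 1 * v 1 * a 6)
    + (-6) * (v 8 * v 8 * a 7) + (3) * (v 8 * v 8 * v 0 * v 1 * a 7) + (-12) * (v 9 * v 5 * a 8)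
    + (12) * (v 9 * v 3 * v 1 * a 8) + (12) * (v 10 * v 5 * v 0 * a 8)
    + (-12) * (v 10 * v 3 * a 8) + (-12) * (v 7 * v 8 * a 8)
    + (6) * (v 7 * v 8 * v 0 * v 1 * a 8) + (-6) * (v 6 * v 8 * v 1 * v 1 * a 8)
    + (-24) * (v 8 * v 5 * v 3 * v 0 * a 8) + (-24) * (v 8 * v 5 * v 4 * a 8)
    + (12) * (v 8 * v 5 * v 1 * v 2 * a 8) + (12) * (v 8 * v 3 * v 4 * v 1 * a 8)
    + (24) * (v 8 * v 3 * v 3 * a 8) + (9) * (v 8 * v 8 * v 1 * a 8)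
    + (4) * (v 9 * v 1 * v 1 * a 9) + (-4) * (v 10 * v 1 * a 9) + (-12) * (v 8 * v 5 * a 9)
    + (12) * (v 8 * v 3 * v 1 * a 9) + (-4) * (v 9 * v 1 * a 10) + (8) * (v 10 * a 10)
    + (-4) * (v 10 * v 0 * v 1 * a 10) + (12) * (v 8 * v 5 * v 0 * a 10)
    + (-12) * (v 8 * v 3 * a 10)

lemma h_be {g : Fin 12 → ℝ → ℝ} {a v : Fin 12 → ℝ} (h : ∀ i, HasDerivAt (g i) (a i) 0)
    (hg : ∀ i, g i 0 = v i) : HasDerivAt (fun t => be (fun i => g i t)) (d_be v a) 0 := by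
  refine HasDerivAt.congr_deriv (f := fun t => be (fun i => g i t)) (f' := _)
    ((((((((((((((((((((h 9).mul (h 10)).mul (h 1)).const_mul (-4)).add
      ((((h 9).mul (h 8)).mul (h 5)).const_mul (-12))).add
      (((((h 9).mul (h 8)).mul (h 3)).mul (h 1)).const_mul (12))).add
      (((((h 9).mul (h 9)).mul (h 1)).mul (h 1)).const_mul (2))).add
      (((((h 10).mul (h 8)).mul (h 5)).mul (h 0)).const_mul (12))).add
      ((((h 10).mul (h 8)).mul (h 3)).const_mul (-12))).add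
      (((h 10).mul (h 10)).const_mul (4))).add
      (((((h 10).mul (h 10)).mul (h 0)).mul (h 1)).const_mul (-2))).add
      ((((h 7).mul (h 8)).mul (h 8)).const_mul (-6))).add
      ((((((h 7).mul (h 8)).mul (h 8)).mul (h 0)).mul (h 1)).const_mul (3))).add
      ((((((h 6).mul (h 8)).mul (h 8)).mul (h 1)).mul (h 1)).const_mul (-3))).add
      ((((((h 8).mul (h 8)).mul (h 5)).mul (h 3)).mul (h 0)).const_mul (-12))).add
      (((((h 8).mul (h 8)).mul (h 5)).mul (h 4)).const_mul (-12))).add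
      ((((((h 8).mul (h 8)).mul (h 5)).mul (h 1)).mul (h 2)).const_mul (6))).add
      ((((((h 8).mul (h 8)).mul (h 3)).mul (h 4)).mul (h 1)).const_mul (6))).add
      (((((h 8).mul (h 8)).mul (h 3)).mul (h 3)).const_mul (12))).add
      (((((h 8).mul (h 8)).mul (h 8)).mul (h 1)).const_mul (3))) ?_
  simp only [hg, Pi.mul_apply, d_be]
  ring

end

end Pool.Agent.U892.PD.ALG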