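import Pool.Agent.U892.PD.Alg1

set_option autoImplicit false
set_option linter.unusedSimpArgs false

/-!
# Project PD: the algebra of the closed system
-/

namespace Pool.Agent.U892.PD.ALG

open Pool.Agent.U892.PD

/-- the values and the first derivatives of the functions of the closed system at a point -/
structure Pt (v A B : Fin 12 → ℝ) : Prop where
  a0 : A 0 = v 2 - v 0 * v 4
  a1 : A 1 = v 3 - v 0 * v 5
  a2 : A 2 = -(v 4 * v 2)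
  a3 : A 3 = v 8 - v 2 * v 5
  a4 : A 4 = v 6 - v 4 ^ 2
  a5 : A 5 = v 7 - v 4 * v 5
  a6 : A 6 = 3 * v 8 * v 2 + v 0 * v 9 - v 4 * v 6
  a7 : A 7 = 3 * v 3 * v 8 + v 1 * v 9 - v 10 - v 6 * v 5
  a8 : A 8 = v 9
  a9 : A 9 = v 0 * v 11 + 4 * v 2 * v 10 - 6 * v 8 * v 6 + 3 * v 0 * v 8 ^ 2 - 4 * v 4 * v 9
  a10 : A 10 = v 11
  b0 : B 0 = v 1 * v 2 - v 4
  b1 : B 1 = v 1 * v 3 - v 5
  b2 : B 2 = v 3 * v 2 - v 6 + v 0 * v 8
  b3 : B 3 = v 3 ^ 2 + v 1 * v 8 - v 7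
  b4 : B 4 = v 8 + v 2 * v 5
  b5 : B 5 = v 3 * v 5
  b6 : B 6 = v 9 + v 2 * v 7 + 2 * v 4 * v 8
  b7 : B 7 = 2 * v 8 * v 5 + v 3 * v 7
  b8 : B 8 = v 10
  b9 : B 9 = v 11
  b10 : B 10 = v 1 * v 11 + 4 * v 3 * v 10 - 6 * v 8 * v 7 + 3 * v 1 * v 8 ^ 2 - 4 * v 5 * v 9

variable {v A B : Fin 12 → ℝ}

lemma mab (P : Pt v A B) (h1 : A 11 = d_pTaa v B) (h2 : B 11 = d_pTbb v A) :
    (1 - v 0 * v 1) * A 11 = XM v ∧ (1 - v 0 * v 1) * B 11 = YM v := by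
  simp only [d_pTaa, P.b0, P.b1, P.b2, P.b3, P.b4, P.b5, P.b6, P.b7, P.b8, P.b9, P.b10] at h1
  simp only [d_pTbb, P.a0, P.a1, P.a2, P.a3, P.a4, P.a5, P.a6, P.a7, P.a8, P.a9, P.a10] at h2
  simp only [XM, YM]
  constructor
  · linear_combination h1 + v 0 * h2
  · linear_combination h2 + v 1 * h1

lemma c0 (P : Pt v A B) (hA : (1 - v 0 * v 1) * A 11 = XM v) (hB : (1 - v 0 * v 1) * B 11 = YM v)
    (hne : 1 - v 0 * v 1 ≠ 0)
    (hK : -(B 0 * v 1 + v 0 * B 1) * A 11 + (A 0 * v 1 + v 0 * A 1) * B 11 - d_XM v B + d_YM v A = 0) :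
    C0 v = 0 := by
  simp only [d_XM, P.b0, P.b1, P.b2, P.b3, P.b4, P.b5, P.b6, P.b7, P.b8, P.b9, P.b10,
    d_YM, P.a0, P.a1, P.a2, P.a3, P.a4, P.a5, P.a6, P.a7, P.a8, P.a9, P.a10] at hK
  simp only [XM] at hA
  simp only [YM] at hB
  have h : 10 * (1 - v 0 * v 1) * C0 v = 0 := by
    simp only [C0]
    linear_combination (1 - v 0 * v 1) * hK
      - (-4 * v 5 * v 0 + 5 * v 3 - v 3 * v 0 * v 1 - 4 * v 4 * v 1 + 4 * v 1 ^ 2 * v 2) * hA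
      - (4 * v 5 * v 0 ^ 2 - 4 * v 3 * v 0 + 5 * v 4 - v 4 * v 0 * v 1 - 4 * v 1 * v 2) * hB
  rcases mul_eq_zero.1 h with h' | h'
  · exact absurd h' (mul_ne_zero (by norm_num) hne)
  · exact h'

lemma eab (P : Pt v A B) (hA : (1 - v 0 * v 1) * A 11 = XM v) (hB : (1 - v 0 * v 1) * B 11 = YM v)
    (h0 : C0 v = 0) (h1 : d_C0 v A = 0) (h2 : d_C0 v B = 0) : Ea v = 0 ∧ Eb v = 0 := by
  simp only [C0] at h0
  simp only [d_C0, P.a0, P.a1, P.a2, P.a3, P.a4, P.a5, P.a6, P.a7, P.a8, P.a9, P.a10] at h1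
  simp only [d_C0, P.b0, P.b1, P.b2, P.b3, P.b4, P.b5, P.b6, P.b7, P.b8, P.b9, P.b10] at h2
  simp only [XM] at hA
  simp only [YM] at hB
  constructor
  · simp only [Ea]
    linear_combination (1 / 7) * h1 + (v 4 / 7) * h0 - (3 * v 8 / 7) * hA
  · simp only [Eb]
    linear_combination (1 / 7) * h2 - (v 3 / 7) * h0 - (3 * v 8 / 7) * hB

lemma albe (P : Pt v A B) (hA : (1 - v 0 * v 1) * A 11 = XM v)
    (hB : (1 - v 0 * v 1) * B 11 = YM v) (hT : v 8 ≠ 0)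
    (h0 : C0 v = 0) (ha : Ea v = 0) (hb : Eb v = 0) (h1 : d_Ea v A = 0) (h2 : d_Ea v B = 0)
    (h3 : d_Eb v B = 0) : al v = 0 ∧ be v = 0 := by
  simp only [C0] at h0
  simp only [Ea] at ha
  simp only [Eb] at hb
  simp only [d_Ea, P.a0, P.a1, P.a2, P.a3, P.a4, P.a5, P.a6, P.a7, P.a8, P.a9, P.a10] at h1
  simp only [d_Ea, P.b0, P.b1, P.b2, P.b3, P.b4, P.b5, P.b6, P.b7, P.b8, P.b9, P.b10] at h2
  simp only [d_Eb, P.b0, P.b1, P.b2, P.b3, P.b4, P.b5, P.b6, P.b7, P.b8, P.b9, P.b10] at h3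
  simp only [XM] at hA
  simp only [YM] at hB
  constructor
  · have h : 6 * v 8 * al v = 0 := by
      simp only [al]
      linear_combination h1 - v 0 * h2 + 4 * v 6 * h0 + 9 * v 4 * ha + v 3 * v 0 * ha - 8 * v 2 * hb
        - 4 * v 0 * v 8 * h0 - v 9 * hA + v 0 * v 9 * hB
    rcases mul_eq_zero.1 h with h' | h'
    · exact absurd h' (mul_ne_zero (by norm_num) hT)
    · exact h'
  · have h : 6 * v 8 * be v = 0 := by
      simp only [be]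
      linear_combination h3 - v 1 * h2 + 4 * v 7 * h0 + 8 * v 5 * ha + v 3 * v 1 * ha - 9 * v 3 * hb
        - 4 * v 1 * v 8 * h0 - v 10 * hB + v 1 * v 9 * hB
    rcases mul_eq_zero.1 h with h' | h'
    · exact absurd h' (mul_ne_zero (by norm_num) hT)
    · exact h'

end Pool.Agent.U892.PD.ALG
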