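import Pool.Agent.U892.PD.Alg2

set_option autoImplicit false
set_option linter.unusedSimpArgs false
set_option linter.unusedVariables false

/-!
# Project PD: the last step of the algebra: `T = 0` where `φ = ψ = 0`
-/

namespace Pool.Agent.U892.PD.ALG

open Pool.Agent.U892.PD

variable {v A B : Fin 12 → ℝ}

/-- the contradiction in the normalised variables -/
lemma norm_last {t d T a b G H m : ℝ} (hT : T ≠ 0)
    (n0 : 4 * a * b + 3 * m * T + 18 * T ^ 2 * d * t = 0)
    (n1 : a * m - 6 * a * T ^ 2 - 6 * b * G * T + 2 * b ^ 2 * t - 9 * H * T ^ 2 * t = 0)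
    (n2 : -6 * a * H * T - 2 * a ^ 2 * d + b * m + 6 * b * T ^ 2 + 9 * G * T ^ 2 * d = 0)
    (nα : 6 * G * T ^ 2 - 4 * a ^ 2 - 12 * b * T * t = 0)
    (nβ : -12 * a * T * d + 4 * b ^ 2 - 6 * H * T ^ 2 = 0)
    (n3 : -8 * a * b * T - 32 * a * b * d * t + 48 * a * G * T * d - 8 * a ^ 2 * H - 48 * b * H * T * t
      - 8 * b ^ 2 * G + 36 * H * G * T ^ 2 - 6 * m * T ^ 2 + m ^ 2 - 36 * T ^ 3 * d * t - 9 * T ^ 4 = 0)
    (nDaα : -40 * a * b * t + 48 * a * G * T - 12 * m * T * t - 18 * T ^ 2 * d * t ^ 2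
      + 27 * T ^ 3 * t = 0)
    (nDbα : -8 * a * m + 24 * a * T * d * t - 6 * a * T ^ 2 + 24 * b * G * T - 12 * b ^ 2 * t
      + 66 * H * T ^ 2 * t = 0)
    (nDaβ : -24 * a * H * T - 12 * a ^ 2 * d + 8 * b * m - 24 * b * T * d * t - 6 * b * T ^ 2
      + 66 * G * T ^ 2 * d = 0)
    (nDbβ : -40 * a * b * d - 48 * b * H * T - 12 * m * T * d - 18 * T ^ 2 * d ^ 2 * t
      - 27 * T ^ 3 * d = 0) : False := by
  have ha : a = 0 := by
    have h : -36 * T ^ 3 * a = 0 := by
      linear_combination T * nDbα + 5 * T * n1 + a * n0 + b * nα + (7 / 2) * T * t * nβ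
    rcases mul_eq_zero.1 h with h' | h'
    · exact absurd h' (mul_ne_zero (by norm_num) (pow_ne_zero _ hT))
    · exact h'
  have hb : b = 0 := by
    have h : -36 * T ^ 3 * b = 0 := by
      linear_combination T * nDaβ - 5 * T * n2 - b * n0 + a * nβ - (7 / 2) * T * d * nα
    rcases mul_eq_zero.1 h with h' | h'
    · exact absurd h' (mul_ne_zero (by norm_num) (pow_ne_zero _ hT))
    · exact h'
  subst ha hb
  have hG : G = 0 := by
    have h : 6 * T ^ 2 * G = 0 := by linear_combination nα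
    rcases mul_eq_zero.1 h with h' | h'
    · exact absurd h' (mul_ne_zero (by norm_num) (pow_ne_zero _ hT))
    · exact h'
  have hH : H = 0 := by
    have h : -6 * T ^ 2 * H = 0 := by linear_combination nβ
    rcases mul_eq_zero.1 h with h' | h'
    · exact absurd h' (mul_ne_zero (by norm_num) (pow_ne_zero _ hT))
    · exact h'
  have hm : m = -6 * T * d * t := by
    have h : 3 * T * (m + 6 * T * d * t) = 0 := by linear_combination n0
    rcases mul_eq_zero.1 h with h' | h'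
    · exact absurd h' (mul_ne_zero (by norm_num) hT)
    · linear_combination h'
  subst hG hH hm
  have k1 : t * (2 * d * t + T) = 0 := by
    have h : 27 * T ^ 2 * (t * (2 * d * t + T)) = 0 := by linear_combination nDaα
    rcases mul_eq_zero.1 h with h' | h'
    · exact absurd h' (mul_ne_zero (by norm_num) (pow_ne_zero _ hT))
    · exact h'
  have k2 : d * (2 * d * t - T) = 0 := by
    have h : 27 * T ^ 2 * (d * (2 * d * t - T)) = 0 := by linear_combination nDbβ
    rcases mul_eq_zero.1 h with h' | h'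
    · exact absurd h' (mul_ne_zero (by norm_num) (pow_ne_zero _ hT))
    · exact h'
  have k3 : 4 * d ^ 2 * t ^ 2 - T ^ 2 = 0 := by
    have h : 9 * T ^ 2 * (4 * d ^ 2 * t ^ 2 - T ^ 2) = 0 := by linear_combination n3
    rcases mul_eq_zero.1 h with h' | h'
    · exact absurd h' (mul_ne_zero (by norm_num) (pow_ne_zero _ hT))
    · exact h'
  have ht : t ≠ 0 := by
    rintro rfl
    apply hT
    have : T ^ 2 = 0 := by linear_combination -k3
    exact pow_eq_zero_iff (two_ne_zero) |>.1 this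
  have hd : d ≠ 0 := by
    rintro rfl
    apply hT
    have : T ^ 2 = 0 := by linear_combination -k3
    exact pow_eq_zero_iff (two_ne_zero) |>.1 this
  have e1 : 2 * d * t + T = 0 := (mul_eq_zero.1 k1).resolve_left ht
  have e2 : 2 * d * t - T = 0 := (mul_eq_zero.1 k2).resolve_left hd
  apply hT
  linear_combination (1 / 2) * e1 - (1 / 2) * e2

lemma last (P : Pt v A B) (z0 : v 0 = 0) (z1 : v 1 = 0) (hT : v 8 ≠ 0)
    (hA : (1 - v 0 * v 1) * A 11 = XM v) (hB : (1 - v 0 * v 1) * B 11 = YM v)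
    (h0 : C0 v = 0) (ha : Ea v = 0) (hb : Eb v = 0) (hal : al v = 0) (hbe : be v = 0)
    (h1 : d_Ea v B = 0) (h2 : d_al v A = 0) (h3 : d_al v B = 0) (h4 : d_be v A = 0)
    (h5 : d_be v B = 0) : False := by
  simp only [C0, z0, z1] at h0
  simp only [Ea, z0, z1] at ha
  simp only [Eb, z0, z1] at hb
  simp only [al, z0, z1] at hal
  simp only [be, z0, z1] at hbe
  simp only [XM, z0, z1] at hA
  simp only [YM, z0, z1] at hB
  simp only [d_Ea, P.b0, P.b1, P.b2, P.b3, P.b4, P.b5, P.b6, P.b7, P.b8, P.b9, P.b10, z0, z1] at h1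
  simp only [d_al, P.a0, P.a1, P.a2, P.a3, P.a4, P.a5, P.a6, P.a7, P.a8, P.a9, P.a10, z0, z1] at h2
  simp only [d_al, P.b0, P.b1, P.b2, P.b3, P.b4, P.b5, P.b6, P.b7, P.b8, P.b9, P.b10, z0, z1] at h3
  simp only [d_be, P.a0, P.a1, P.a2, P.a3, P.a4, P.a5, P.a6, P.a7, P.a8, P.a9, P.a10, z0, z1] at h4
  simp only [d_be, P.b0, P.b1, P.b2, P.b3, P.b4, P.b5, P.b6, P.b7, P.b8, P.b9, P.b10, z0, z1] at h5
  have n1 : Ea v + (1 / 2) * v 4 * C0 v = 0 := by
    simp only [Ea, C0, z0, z1]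
    linear_combination ha + (1 / 2) * v 4 * h0
  have n2 : Eb v - (1 / 2) * v 3 * C0 v = 0 := by
    simp only [Eb, C0, z0, z1]
    linear_combination hb - (1 / 2) * v 3 * h0
  simp only [Ea, C0, z0, z1] at n1
  simp only [Eb, C0, z0, z1] at n2
  refine norm_last (t := v 2) (d := v 5) (T := v 8) (a := v 9 + (3 / 2) * v 4 * v 8)
    (b := v 10 - (3 / 2) * v 3 * v 8) (G := v 6 - v 4 ^ 2 / 2 - v 3 * v 2)
    (H := v 7 - v 4 * v 5 - v 3 ^ 2 / 2)
    (m := v 11 + 2 * v 4 * v 10 - 2 * v 3 * v 9 - 3 * v 8 * v 4 * v 3) hT ?_ ?_ ?_ ?_ ?_ ?_ ?_ ?_ ?_ ?_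
  · linear_combination h0
  · linear_combination n1
  · linear_combination n2
  · linear_combination hal
  · linear_combination hbe
  · linear_combination h1 - v 9 * hB + (5 / 2) * v 3 * v 4 * h0 - 5 * v 3 * n1 + 4 * v 4 * n2
  · linear_combination h2 + 5 * v 4 * hal
  · linear_combination h3 - 4 * v 3 * hal
  · linear_combination h4 + 4 * v 4 * hbe
  · linear_combination h5 - 5 * v 3 * hbe

end Pool.Agent.U892.PD.ALG
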