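import Pool.Agent.U892.PD.Stm

set_option autoImplicit false

/-!
# Project PD: foliations with affine symmetries, projectivity along one curve is enough
-/

open Filter Topology Set
open scoped ContDiff

namespace Pool.Agent.U892.PD.Sw

open Pool.Agent.U892.PD

/-- the involution of the tangent line at `p` is projective, points at distance less than `r` -/
def ProjAt (F : ℝ × ℝ → ℝ) (p : ℝ × ℝ) (r : ℝ) : Prop :=
  ∀ v : ℝ × ℝ, ‖v‖ = 1 → fderiv ℝ F p v = 0 → ∃ m : ℝ, ∀ s t : ℝ, 0 < s → s < r → 0 < t → t < r →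
    F (p + s • v) = F (p - t • v) → 1 / s - 1 / t = m

lemma transport {Ω : Set (ℝ × ℝ)} {F : ℝ × ℝ → ℝ} (hF : Foliation Ω F) {γ : Set (ℝ × ℝ)}
    (hγc : IsCompact γ) (hγ : γ ⊆ Ω) {M : ℝ}
    (hsw : ∀ p ∈ Ω, ∃ (L : (ℝ × ℝ) ≃L[ℝ] (ℝ × ℝ)) (b : ℝ × ℝ) (c : ℝ), (∃ x ∈ γ, L x + b = p) ∧
      (∀ v, ‖L.symm v‖ ≤ M * ‖v‖) ∧ ∀ x ∈ Ω, L x + b ∈ Ω → F (L x + b) = F x + c)
    {r : ℝ} (hr : 0 < r) (hp : ∀ p ∈ γ, ProjAt F p r) : Projective Ω F := by
  intro p₀ hp₀
  obtain ⟨ρ, hρ, hρs⟩ := hγc.exists_thickening_subset_open hF.isOpen hγ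
  obtain ⟨δ, hδ, hδs⟩ := Metric.isOpen_iff.1 hF.isOpen p₀ hp₀
  set N : ℝ := max M 1 with hN
  have hN0 : 0 < N := lt_of_lt_of_le one_pos (le_max_right _ _)
  refine ⟨min (δ / 2) (min ρ r / N), lt_min (by positivity) (div_pos (lt_min hρ hr) hN0), ?_⟩
  intro p hpΩ hpd v hv hdv
  obtain ⟨L, b, c, ⟨x, hx, hxp⟩, hL, hFL⟩ := hsw p hpΩ
  have hv0 : v ≠ 0 := by
    rintro rfl
    simp at hv
  set w : ℝ × ℝ := L.symm v with hw
  have hw0 : w ≠ 0 := by
    intro h0
    apply hv0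
    have := congrArg L h0
    simpa [hw] using this
  set κ : ℝ := ‖w‖ with hκ
  have hκ0 : 0 < κ := norm_pos_iff.2 hw0
  have hκN : κ ≤ N := by
    have h1 := hL v
    rw [hv, mul_one] at h1
    exact h1.trans (le_max_left _ _)
  set u : ℝ × ℝ := κ⁻¹ • w with hu
  have hu1 : ‖u‖ = 1 := by
    rw [hu, norm_smul, norm_inv, Real.norm_eq_abs, abs_of_pos hκ0]
    exact inv_mul_cancel₀ hκ0.ne'
  have hLu : L u = κ⁻¹ • v := by
    rw [hu, map_smul, hw, L.apply_symm_apply]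
  have hxΩ : x ∈ Ω := hγ hx
  -- the tangent direction at `x`
  have hcont : Continuous (fun y : ℝ × ℝ => L y + b) := L.continuous.add continuous_const
  have hev : (fun y => F (L y + b)) =ᶠ[𝓝 x] fun y => F y + c := by
    have h1 : ∀ᶠ y in 𝓝 x, y ∈ Ω := hF.isOpen.mem_nhds hxΩ
    have h2 : ∀ᶠ y in 𝓝 x, L y + b ∈ Ω :=
      hcont.continuousAt.eventually (hF.isOpen.mem_nhds (by show L x + b ∈ Ω; rw [hxp]; exact hpΩ))
    filter_upwards [h1, h2] with y h3 h4 using hFL y h3 h4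
  have hdx : fderiv ℝ F x u = 0 := by
    have hFp : HasFDerivAt F (fderiv ℝ F p) (L x + b) := by
      rw [hxp]
      exact ((hF.smooth p hpΩ).differentiableAt (by simp)).hasFDerivAt
    have h1 : HasFDerivAt (fun y => F (L y + b))
        ((fderiv ℝ F p).comp (L : (ℝ × ℝ) →L[ℝ] (ℝ × ℝ))) x :=
      hFp.comp x (L.hasFDerivAt.add_const b)
    have h2 : HasFDerivAt (fun y => F y + c) (fderiv ℝ F x) x :=
      ((hF.smooth x hxΩ).differentiableAt (by simp)).hasFDerivAt.add_const c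
    have h3 := (h1.congr_of_eventuallyEq hev.symm).unique h2
    rw [← h3]
    simp only [ContinuousLinearMap.comp_apply, ContinuousLinearEquiv.coe_coe, hLu, map_smul, hdv,
      smul_zero]
  obtain ⟨m, hm⟩ := hp x hx u hu1 hdx
  have key : ∀ s : ℝ, 0 < |s| → |s| < min (δ / 2) (min ρ r / N) →
      F (p + s • v) = F (x + (κ * s) • u) + c ∧ κ * |s| < r := by
    intro s hs0 hs
    have h1 : |s| < δ / 2 := lt_of_lt_of_le hs (min_le_left _ _)
    have h2 : N * |s| < min ρ r := by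
      have := lt_of_lt_of_le hs (min_le_right _ _)
      rw [lt_div_iff₀ hN0] at this
      linarith
    have h3 : κ * |s| < min ρ r := lt_of_le_of_lt (mul_le_mul_of_nonneg_right hκN hs0.le) h2
    have hy : x + (κ * s) • u ∈ Ω := by
      apply hρs
      rw [Metric.mem_thickening_iff]
      refine ⟨x, hx, ?_⟩
      rw [dist_eq_norm, add_sub_cancel_left, norm_smul, hu1, mul_one, Real.norm_eq_abs, abs_mul,
        abs_of_pos hκ0]
      exact lt_of_lt_of_le h3 (min_le_left _ _)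
    have hLy : L (x + (κ * s) • u) + b = p + s • v := by
      rw [map_add, map_smul, hLu, smul_smul, ← hxp]
      have : κ * s * κ⁻¹ = s := by field_simp
      rw [this]
      abel
    have hpy : L (x + (κ * s) • u) + b ∈ Ω := by
      rw [hLy]
      apply hδs
      rw [Metric.mem_ball, dist_eq_norm]
      have h4 : p + s • v - p₀ = (p - p₀) + s • v := by abel
      rw [h4]
      have h5 : ‖p - p₀‖ < δ / 2 := by
        rw [← dist_eq_norm]
        exact lt_of_lt_of_le hpd (min_le_left _ _)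
      have h6 : ‖s • v‖ = |s| := by rw [norm_smul, hv, mul_one, Real.norm_eq_abs]
      have h7 := norm_add_le (p - p₀) (s • v)
      linarith
    refine ⟨?_, lt_of_lt_of_le h3 (min_le_right _ _)⟩
    rw [← hLy]
    exact hFL _ hy hpy
  refine ⟨κ * m, fun s t hs0 hs ht0 ht hst => ?_⟩
  obtain ⟨k1, k2⟩ := key s (by rwa [abs_of_pos hs0]) (by rwa [abs_of_pos hs0])
  obtain ⟨k3, k4⟩ := key (-t) (by rwa [abs_neg, abs_of_pos ht0]) (by rwa [abs_neg, abs_of_pos ht0])
  rw [abs_of_pos hs0] at k2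
  rw [abs_neg, abs_of_pos ht0] at k4
  have e1 : p + (-t) • v = p - t • v := by rw [neg_smul]; abel
  have e2 : x + (κ * -t) • u = x - (κ * t) • u := by
    rw [mul_neg, neg_smul]
    abel
  rw [e1, e2] at k3
  have h1 : F (x + (κ * s) • u) = F (x - (κ * t) • u) := by
    have := k1.symm.trans (hst.trans k3)
    linarith
  have h2 := hm (κ * s) (κ * t) (by positivity) k2 (by positivity) k4 h1
  rw [← h2]
  field_simp

end Pool.Agent.U892.PD.Sw
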